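import Pool.Agent.Work.MP_f21b3e_ml.Interface

/-! # Block ACO: the asymptotic line through a point is continuous (helper56) -/

set_option autoImplicit false

namespace Pool.Agent.MLS

open Set Topology Filter

theorem ACO_eval {X : Type} [MetricSpace X] (t : ℝ) : Continuous fun c : Lines X => c.1 t :=
  (continuous_eval_const t).comp continuous_subtype_val

theorem p_ACO (hARZ : Stmt_ARZ) (hAUN : Stmt_AUN) (hAEX : Stmt_AEX) : Stmt_ACO := by
  intro X _ hX
  have := hX.proper
  choose a h1 h2 using hAEX X hX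
  have h3 : ∀ c d : Lines X, Asy c d → a c (d.1 0) = d := by
    intro c d hcd
    obtain ⟨C, hC⟩ := hcd
    refine hAUN X hX _ _ (h1 c (d.1 0)) ⟨2 * dist (c.1 0) (d.1 0) + C, fun t ht => ?_⟩
    calc dist ((a c (d.1 0)).1 t) (d.1 t)
        ≤ dist ((a c (d.1 0)).1 t) (c.1 t) + dist (c.1 t) (d.1 t) := dist_triangle _ _ _
      _ ≤ 2 * dist (c.1 0) (d.1 0) + C := by
          refine add_le_add ?_ (hC t ht)
          rw [dist_comm]
          exact h2 c (d.1 0) t ht
  refine ⟨a, h1, fun c x => ⟨_, h2 c x⟩, h3, ?_⟩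
  rw [continuous_iff_ultrafilter]
  rintro ⟨c, x⟩ g hg
  have g1 : Tendsto (fun q : Lines X × X => q.1) g (𝓝 c) :=
    (continuous_fst.tendsto (c, x)).mono_left hg
  have g2 : Tendsto (fun q : Lines X × X => q.2) g (𝓝 x) :=
    (continuous_snd.tendsto (c, x)).mono_left hg
  have hS : IsCompact {c : Lines X | c.1 0 ∈ Metric.closedBall x 1} :=
    hARZ X hX.proper _ (isCompact_closedBall x 1)
  have hmem : {c : Lines X | c.1 0 ∈ Metric.closedBall x 1} ∈
      g.map (fun q : Lines X × X => a q.1 q.2) := by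
    rw [Ultrafilter.mem_map]
    filter_upwards [g2 (Metric.closedBall_mem_nhds x one_pos)] with q hq
    show (a q.1 q.2).1 0 ∈ Metric.closedBall x 1
    rw [h1]
    exact hq
  obtain ⟨d, -, hd⟩ := isCompact_iff_ultrafilter_le_nhds'.1 hS _ hmem
  have hd' : Tendsto (fun q : Lines X × X => a q.1 q.2) g (𝓝 d) := hd
  have e1 : ∀ t, Tendsto (fun q : Lines X × X => (a q.1 q.2).1 t) g (𝓝 (d.1 t)) :=
    fun t => ((ACO_eval t).tendsto d).comp hd'
  have e2 : ∀ t, Tendsto (fun q : Lines X × X => q.1.1 t) g (𝓝 (c.1 t)) :=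
    fun t => ((ACO_eval t).tendsto c).comp g1
  have e3 : d.1 0 = x := by
    refine tendsto_nhds_unique (e1 0) ?_
    simp only [h1]
    exact g2
  have e4 : Asy c d := by
    refine ⟨2 * dist (c.1 0) x, fun t ht => ?_⟩
    exact le_of_tendsto_of_tendsto ((e2 t).dist (e1 t)) (((e2 0).dist g2).const_mul 2)
      (Eventually.of_forall fun q => h2 q.1 q.2 t ht)
  have e5 := h3 c d e4
  rw [e3] at e5
  show Tendsto (fun q : Lines X × X => a q.1 q.2) g (𝓝 (a c x))
  rw [e5]
  exact hd'

end Pool.Agent.MLS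

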