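import Pool.Agent.Work.MP_f21b3e_ml.Interface

set_option autoImplicit false

namespace Pool.Agent.MLS

open Set Topology Filter

theorem AEX_key {X : Type} [MetricSpace X] (hX : IsHadamard X) (c : Lines X) (x : X) (n : ℕ)
    (hn : dist (c.1 0) x < n) :
    ∃ d : Lines X, d.1 0 = x ∧ ∀ t : ℝ, 0 ≤ t → t ≤ n - dist (c.1 0) x →
      dist (c.1 t) (d.1 t) ≤ 2 * dist (c.1 0) x := by
  have h1 : dist (c.1 0) (c.1 (n : ℝ)) = n := by
    rw [c.2.dist_eq, Real.dist_eq]
    simp
  have hne : x ≠ c.1 (n : ℝ) := by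
    intro h
    rw [← h] at h1
    linarith
  obtain ⟨d, ⟨hd0, hdR⟩, -⟩ := hX.line x (c.1 (n : ℝ)) hne
  set R : ℝ := dist x (c.1 (n : ℝ)) with hRdef
  have hRpos : 0 < R := dist_pos.2 hne
  have hDnn : 0 ≤ dist (c.1 0) x := dist_nonneg
  have hR1 : (n : ℝ) ≤ dist (c.1 0) x + R := by
    have := dist_triangle (c.1 0) x (c.1 (n : ℝ))
    linarith
  have hR2 : R ≤ dist (c.1 0) x + n := by
    have := dist_triangle x (c.1 0) (c.1 (n : ℝ))
    rw [dist_comm x (c.1 0), h1] at this
    linarith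
  refine ⟨d, hd0, fun t ht htn => ?_⟩
  have htR : t ≤ R := by linarith
  have hconv := hX.convex (rev (shift n c)) (rev (shift R d)) (by
    show c.1 (-0 + (n : ℝ)) = d.1 (-0 + R)
    rw [neg_zero, zero_add, zero_add, hdR]) n R (1 - t / R) (Nat.cast_nonneg n) hRpos.le
    (by rw [sub_nonneg, div_le_one hRpos]; exact htR)
    (by have := div_nonneg ht hRpos.le; linarith)
  have e1 : (rev (shift n c)).1 ((1 - t / R) * n) = c.1 (t / R * n) := by
    show c.1 (-((1 - t / R) * n) + n) = _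
    congr 1
    ring
  have e2 : (rev (shift R d)).1 ((1 - t / R) * R) = d.1 t := by
    show d.1 (-((1 - t / R) * R) + R) = _
    congr 1
    field_simp
    ring
  have e3 : (rev (shift n c)).1 (n : ℝ) = c.1 0 := by
    show c.1 (-(n : ℝ) + n) = _
    congr 1
    ring
  have e4 : (rev (shift R d)).1 R = x := by
    show d.1 (-R + R) = _
    rw [neg_add_cancel, hd0]
  rw [e1, e2, e3, e4] at hconv
  have h5 : dist (c.1 t) (c.1 (t / R * n)) ≤ dist (c.1 0) x := by
    rw [c.2.dist_eq, Real.dist_eq]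
    have : t - t / R * n = t / R * (R - n) := by
      field_simp
    rw [this, abs_mul, abs_of_nonneg (div_nonneg ht hRpos.le)]
    have h6 : |R - n| ≤ dist (c.1 0) x := abs_le.2 ⟨by linarith, by linarith⟩
    have h7 : t / R ≤ 1 := by rw [div_le_one hRpos]; exact htR
    calc t / R * |R - n| ≤ 1 * dist (c.1 0) x :=
          mul_le_mul h7 h6 (abs_nonneg _) zero_le_one
      _ = dist (c.1 0) x := one_mul _
  have h8 : (1 - t / R) * dist (c.1 0) x ≤ dist (c.1 0) x := by
    have := div_nonneg ht hRpos.le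
    nlinarith
  calc dist (c.1 t) (d.1 t) ≤ dist (c.1 t) (c.1 (t / R * n)) + dist (c.1 (t / R * n)) (d.1 t) :=
        dist_triangle _ _ _
    _ ≤ 2 * dist (c.1 0) x := by linarith

theorem p_AEX (hARZ : Stmt_ARZ) : Stmt_AEX := by
  intro X _ hX c x
  classical
  have hP := hX.proper
  have hcomp := hARZ X hP {x} isCompact_singleton
  obtain ⟨N, hN⟩ := exists_nat_gt (dist (c.1 0) x)
  have hex : ∀ n : ℕ, ∃ d : Lines X, d.1 0 = x ∧ ∀ t : ℝ, 0 ≤ t →
      t ≤ (n + N : ℕ) - dist (c.1 0) x → dist (c.1 t) (d.1 t) ≤ 2 * dist (c.1 0) x := by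
    intro n
    apply AEX_key hX c x
    push_cast
    have : (0 : ℝ) ≤ n := Nat.cast_nonneg n
    linarith
  choose u hu0 hu using hex
  obtain ⟨d, hd, hle⟩ := hcomp.ultrafilter_le_nhds ((hyperfilter ℕ).map u)
    (by
      rw [le_principal_iff, Ultrafilter.mem_coe, Ultrafilter.mem_map]
      exact Filter.univ_mem' fun n => by simp [hu0 n])
  have hconv : Tendsto u (hyperfilter ℕ : Filter ℕ) (𝓝 d) := hle
  refine ⟨d, by simpa using hd, fun t ht => ?_⟩
  have hev : Tendsto (fun n => dist (c.1 t) ((u n).1 t)) (hyperfilter ℕ : Filter ℕ)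
      (𝓝 (dist (c.1 t) (d.1 t))) := by
    have hc : Continuous (fun e : Lines X => dist (c.1 t) (e.1 t)) :=
      continuous_const.dist ((ContinuousEvalConst.continuous_eval_const t).comp
        continuous_subtype_val)
    exact (hc.tendsto d).comp hconv
  refine le_of_tendsto hev ?_
  obtain ⟨m, hm⟩ := exists_nat_gt (t + dist (c.1 0) x)
  have hat : ∀ᶠ n in (hyperfilter ℕ : Filter ℕ), m ≤ n :=
    (Nat.hyperfilter_le_atTop) (eventually_ge_atTop m)
  filter_upwards [hat] with n hn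
  apply hu n t ht
  push_cast
  have h1 : (m : ℝ) ≤ n := Nat.cast_le.2 hn
  have h2 : (0 : ℝ) ≤ N := Nat.cast_nonneg N
  linarith

end Pool.Agent.MLS
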