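import Pool.Agent.Work.MP_f21b3e_ml.Interface

set_option autoImplicit false

namespace Pool.Agent.MLS

open Set Topology

theorem ARZ_pi {X : Type} [MetricSpace X] [ProperSpace X] {K : Set X} (hK : IsCompact K) :
    IsCompact {g : ℝ → X | (∀ a b : ℝ, dist (g a) (g b) = dist a b) ∧ g 0 ∈ K} := by
  have hc : IsCompact (Set.pi Set.univ (fun t : ℝ => Metric.cthickening |t| K)) :=
    isCompact_univ_pi (fun t => hK.cthickening)
  refine hc.of_isClosed_subset ?_ ?_
  · have h1 : IsClosed {g : ℝ → X | ∀ a b : ℝ, dist (g a) (g b) = dist a b} := by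
      simp only [Set.ofPred_forall]
      exact isClosed_iInter fun a => isClosed_iInter fun b =>
        isClosed_eq ((continuous_apply a).dist (continuous_apply b)) continuous_const
    have h2 : IsClosed {g : ℝ → X | g 0 ∈ K} := hK.isClosed.preimage (continuous_apply 0)
    exact h1.inter h2
  · rintro g ⟨hg, h0⟩ t -
    refine Metric.mem_cthickening_of_dist_le (g t) (g 0) _ K h0 ?_
    rw [hg, Real.dist_eq, sub_zero]

theorem ARZ_set {X : Type} [MetricSpace X] [ProperSpace X] {K : Set X} (hK : IsCompact K) :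
    IsCompact {g : C(ℝ, X) | Isometry g ∧ g 0 ∈ K} := by
  refine ArzelaAscoli.isCompact_of_equicontinuous _ ?_ ?_
  · have h : ContinuousMap.toFun '' {g : C(ℝ, X) | Isometry g ∧ g 0 ∈ K} =
        {g : ℝ → X | (∀ a b : ℝ, dist (g a) (g b) = dist a b) ∧ g 0 ∈ K} := by
      ext g
      constructor
      · rintro ⟨f, ⟨hf, hf0⟩, rfl⟩
        exact ⟨fun a b => hf.dist_eq a b, hf0⟩
      · rintro ⟨hg, h0⟩
        have hi : Isometry g := Isometry.of_dist_eq hg
        exact ⟨⟨g, hi.continuous⟩, ⟨hi, h0⟩, rfl⟩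
    rw [h]
    exact ARZ_pi hK
  · refine (LipschitzWith.uniformEquicontinuous _ 1 ?_).equicontinuous
    rintro ⟨g, hg, -⟩
    exact hg.lipschitz

theorem p_ARZ : Stmt_ARZ := by
  intro X _ hX K hK
  have := hX
  rw [Topology.IsEmbedding.subtypeVal.isCompact_iff]
  have h : (Subtype.val '' {c : Lines X | c.1 0 ∈ K}) = {g : C(ℝ, X) | Isometry g ∧ g 0 ∈ K} := by
    ext g
    constructor
    · rintro ⟨c, hc, rfl⟩
      exact ⟨c.2, hc⟩
    · rintro ⟨hg, h0⟩
      exact ⟨⟨g, hg⟩, h0, rfl⟩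
  rw [h]
  exact ARZ_set hK

end Pool.Agent.MLS
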