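import Pool.Agent.Work.MP_f21b3e_ml.Interface

set_option autoImplicit false

namespace Pool.Agent.MLS

open Set Topology

theorem AUN_one {X : Type} [MetricSpace X] (hX : IsHadamard X) (c d : Lines X)
    (h0 : c.1 0 = d.1 0) (hA : Asy c d) : c.1 1 = d.1 1 := by
  obtain ⟨C, hC⟩ := hA
  by_contra hne
  have hpos : 0 < dist (c.1 1) (d.1 1) := dist_pos.mpr hne
  have key : ∀ a : ℝ, 1 ≤ a → a * dist (c.1 1) (d.1 1) ≤ C := by
    intro a ha
    have ha0 : 0 < a := by linarith
    have h1 := hX.convex c d h0 a a (1 / a) ha0.le ha0.le (by positivity)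
      (by rw [div_le_one ha0]; exact ha)
    have h2 : 1 / a * a = 1 := by field_simp
    rw [h2] at h1
    have h3 := mul_le_mul_of_nonneg_left h1 ha0.le
    have h4 : a * (1 / a * dist (c.1 a) (d.1 a)) = dist (c.1 a) (d.1 a) := by field_simp
    rw [h4] at h3
    exact le_trans h3 (hC a ha0.le)
  have h5 := key (max 1 ((C + 1) / dist (c.1 1) (d.1 1))) (le_max_left _ _)
  have h6 : (C + 1) / dist (c.1 1) (d.1 1) * dist (c.1 1) (d.1 1) ≤
      max 1 ((C + 1) / dist (c.1 1) (d.1 1)) * dist (c.1 1) (d.1 1) :=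
    mul_le_mul_of_nonneg_right (le_max_right _ _) hpos.le
  rw [div_mul_cancel₀ _ hpos.ne'] at h6
  linarith

theorem p_AUN : Stmt_AUN := by
  intro X _ hX c d h0 hA
  have h1 := AUN_one hX c d h0 hA
  have hd : dist (c.1 0) (c.1 1) = 1 := by
    rw [c.2.dist_eq, Real.dist_eq]
    norm_num
  have hne : c.1 0 ≠ c.1 1 := by
    intro h
    rw [h, dist_self] at hd
    norm_num at hd
  obtain ⟨e, -, he⟩ := hX.line (c.1 0) (c.1 1) hne
  have hc : c = e := he c ⟨rfl, by rw [hd]⟩
  have hd' : d = e := he d ⟨h0.symm, by rw [hd]; exact h1.symm⟩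
  rw [hc, hd']

end Pool.Agent.MLS
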