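import Pool.Agent.Work.MP_f21b3e_ml.Interface

set_option autoImplicit false

namespace Pool.Agent.MLS

open Set Topology

theorem p_BND (hARZ : Stmt_ARZ) : Stmt_BND := by
  intro X Y _ _ hX hY Γ _ _ _ _ _ hK f hf F hF
  obtain ⟨K, hKc, hKs⟩ := hK
  have hprop : ProperSpace X := hX.proper
  refine ⟨?_, ?_⟩
  · have hS := hARZ X hX.proper K hKc
    have hev : Continuous fun c : Lines X => c.1 0 :=
      (continuous_eval_const (0 : ℝ)).comp continuous_subtype_val
    have hev' : Continuous fun c : Lines Y => c.1 0 :=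
      (continuous_eval_const (0 : ℝ)).comp continuous_subtype_val
    have hg : Continuous fun c : Lines X => dist ((F c).1 0) (f (c.1 0)) :=
      (hev'.comp F.continuous).dist (f.continuous.comp hev)
    obtain ⟨C, hC⟩ := hS.exists_bound_of_continuousOn hg.continuousOn
    refine ⟨C, fun c => ?_⟩
    obtain ⟨γ, hγ⟩ := hKs (c.1 0)
    have h1 := hC (mv γ c) hγ
    have h2 : dist ((F (mv γ c)).1 0) (f ((mv γ c).1 0)) = dist ((F c).1 0) (f (c.1 0)) := by
      rw [hF.equiv]
      show dist (γ • (F c).1 0) (f (γ • c.1 0)) = _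
      rw [hf, dist_smul]
    rw [Real.norm_of_nonneg dist_nonneg, h2] at h1
    exact h1
  · intro R
    have hT : IsCompact (K ×ˢ Metric.cthickening R K) := hKc.prod hKc.cthickening
    have hg : Continuous fun p : X × X => dist (f p.1) (f p.2) :=
      (f.continuous.comp continuous_fst).dist (f.continuous.comp continuous_snd)
    obtain ⟨C, hC⟩ := hT.exists_bound_of_continuousOn hg.continuousOn
    refine ⟨C, fun x y hxy => ?_⟩
    obtain ⟨γ, hγ⟩ := hKs x
    have h1 := hC (γ • x, γ • y) ⟨hγ, by
      refine Metric.mem_cthickening_of_dist_le (γ • y) (γ • x) R K hγ ?_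
      rw [dist_smul, dist_comm]
      exact hxy⟩
    have h2 : dist (f (γ • x)) (f (γ • y)) = dist (f x) (f y) := by
      rw [hf, hf, dist_smul]
    rw [Real.norm_of_nonneg dist_nonneg] at h1
    rw [← h2]
    exact h1

end Pool.Agent.MLS
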