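import Pool.Agent.Work.MP_f21b3e_ml.Interface

/-!
# Block FAS: a conjugacy preserves asymptotic lines
-/

set_option autoImplicit false

namespace Pool.Agent.MLS

open Set Topology

theorem FAS_foot {X Y : Type} [MetricSpace X] [MetricSpace Y] (Γ : Type) [Group Γ]
    [MulAction Γ X] [MulAction Γ Y] [IsIsometricSMul Γ X] [IsIsometricSMul Γ Y]
    (F : Lines X ≃ₜ Lines Y) (hF : Conjugacy Γ F) (c : Lines X) (t : ℝ) :
    (F c).1 t = (F (shift t c)).1 0 := by
  rw [hF.flow]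
  show (F c).1 t = (F c).1 (0 + t)
  rw [zero_add]

theorem FAS_one (hB : Stmt_BND) (X Y : Type) [MetricSpace X] [MetricSpace Y] (hX : IsHadamard X)
    (hY : IsHadamard Y) (Γ : Type) [Group Γ] [MulAction Γ X] [MulAction Γ Y]
    [IsIsometricSMul Γ X] [IsIsometricSMul Γ Y]
    (hK : ∃ K : Set X, IsCompact K ∧ ∀ x : X, ∃ γ : Γ, γ • x ∈ K)
    (f : X ≃ₜ Y) (hf : ∀ (γ : Γ) (x : X), f (γ • x) = γ • f x)
    (F : Lines X ≃ₜ Lines Y) (hF : Conjugacy Γ F) (c d : Lines X) (h : Asy c d) :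
    Asy (F c) (F d) := by
  obtain ⟨⟨C, hC⟩, h2⟩ := hB X Y hX hY Γ hK f hf F hF
  obtain ⟨R, hR⟩ := h
  obtain ⟨C', hC'⟩ := h2 R
  refine ⟨C + C' + C, fun t ht => ?_⟩
  have key : ∀ e : Lines X, dist ((F e).1 t) (f (e.1 t)) ≤ C := by
    intro e
    have h3 := hC (shift t e)
    rw [← FAS_foot Γ F hF e t] at h3
    have h4 : (shift t e).1 0 = e.1 t := by
      show e.1 (0 + t) = e.1 t
      rw [zero_add]
    rw [h4] at h3
    exact h3
  have h5 := hC' _ _ (hR t ht)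
  have h6 := key c
  have h7 := key d
  rw [dist_comm] at h7
  have h8 := dist_triangle4 ((F c).1 t) (f (c.1 t)) (f (d.1 t)) ((F d).1 t)
  linarith

theorem FAS_symm {X Y : Type} [MetricSpace X] [MetricSpace Y] (Γ : Type) [Group Γ]
    [MulAction Γ X] [MulAction Γ Y] [IsIsometricSMul Γ X] [IsIsometricSMul Γ Y]
    (F : Lines X ≃ₜ Lines Y) (hF : Conjugacy Γ F) : Conjugacy Γ F.symm where
  equiv := by
    intro γ c
    apply F.injective
    rw [F.apply_symm_apply, hF.equiv, F.apply_symm_apply]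
  flow := by
    intro s c
    apply F.injective
    rw [F.apply_symm_apply, hF.flow, F.apply_symm_apply]

theorem p_FAS (hB : Stmt_BND) : Stmt_FAS := by
  intro X Y _ _ hX hY Γ _ _ _ _ _ hK f hf F hF c d
  refine ⟨FAS_one hB X Y hX hY Γ hK f hf F hF c d, fun h => ?_⟩
  obtain ⟨K, hKc, hK'⟩ := hK
  have hf' : ∀ (γ : Γ) (y : Y), f.symm (γ • y) = γ • f.symm y := by
    intro γ y
    apply f.injective
    rw [f.apply_symm_apply, hf, f.apply_symm_apply]
  have hKY : ∃ K : Set Y, IsCompact K ∧ ∀ y : Y, ∃ γ : Γ, γ • y ∈ K := by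
    refine ⟨f '' K, hKc.image f.continuous, fun y => ?_⟩
    obtain ⟨γ, hγ⟩ := hK' (f.symm y)
    refine ⟨γ, γ • f.symm y, hγ, ?_⟩
    rw [hf, f.apply_symm_apply]
  have h2 := FAS_one hB Y X hY hX Γ hKY f.symm hf' F.symm (FAS_symm Γ F hF) (F c) (F d) h
  rwa [F.symm_apply_apply, F.symm_apply_apply] at h2

end Pool.Agent.MLS
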