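import Pool.Agent.Work.MP_f21b3e_ml.Interface

set_option autoImplicit false

namespace Pool.Agent.MLS

open Set Topology

theorem HMB_dist {X : Type} [MetricSpace X] (c : Lines X) {r : ℝ} (hr : 0 ≤ r) :
    dist (c.1 0) (c.1 r) = r := by
  rw [c.2.dist_eq, Real.dist_eq, zero_sub, abs_neg, abs_of_nonneg hr]

theorem HMB_line {X : Type} [MetricSpace X] (hX : IsHadamard X) (c : Lines X) (r t : ℝ)
    (hr : 0 ≤ r) : hm (c.1 0) t (c.1 r) = c.1 (t * r) := by
  have hd := HMB_dist c hr
  have h : ∃ d : Lines X, d.1 0 = c.1 0 ∧ d.1 (dist (c.1 0) (c.1 r)) = c.1 r :=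
    ⟨c, rfl, by rw [hd]⟩
  unfold hm
  rw [dif_pos h]
  rcases hr.eq_or_lt with h0 | h0
  · have h1 : dist (c.1 0) (c.1 r) = 0 := by rw [hd, ← h0]
    have h3 := h.choose_spec.1
    generalize h.choose = d at h3 ⊢
    rw [h1, ← h0, mul_zero]
    exact h3
  · have hne : c.1 0 ≠ c.1 r := by
      intro he
      have := dist_eq_zero.2 he
      rw [hd] at this
      exact h0.ne' this
    have h2 : h.choose = c := (hX.line _ _ hne).unique h.choose_spec ⟨rfl, by rw [hd]⟩
    rw [h2, hd]

theorem HMB_self {X : Type} [MetricSpace X] (p : X) (t : ℝ) : hm p t p = p := by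
  unfold hm
  split_ifs with h
  · have h3 := h.choose_spec.1
    generalize h.choose = d at h3 ⊢
    rw [dist_self, mul_zero]
    exact h3
  · rfl

theorem HMB_ex {X : Type} [MetricSpace X] (hX : IsHadamard X) {p y : X} (h : y ≠ p) :
    ∃ c : Lines X, c.1 0 = p ∧ c.1 (dist p y) = y ∧ ∀ t, hm p t y = c.1 (t * dist p y) := by
  obtain ⟨c, ⟨h0, h1⟩, -⟩ := hX.line p y h.symm
  refine ⟨c, h0, h1, fun t => ?_⟩
  have h2 := HMB_line hX c (dist p y) t dist_nonneg
  rw [h0, h1] at h2
  exact h2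

theorem p_HMB : Stmt_HMB := by
  intro X _ hX
  have h6 : ∀ (p y : X) (t : ℝ), 0 ≤ t → dist p (hm p t y) = t * dist p y := by
    intro p y t ht
    by_cases h : y = p
    · rw [h, HMB_self, dist_self, mul_zero]
    · obtain ⟨c, h0, h1, h2⟩ := HMB_ex hX h
      rw [h2 t]
      have h3 := HMB_dist c (mul_nonneg ht (dist_nonneg (x := p) (y := y)))
      rw [h0] at h3
      exact h3
  refine ⟨fun c r t hr => HMB_line hX c r t hr, fun p t => HMB_self p t, fun p y => ?_,
    fun p y => ?_, fun p y s t ht => ?_, h6, fun p y z t ht0 ht1 => ?_⟩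
  · by_cases h : y = p
    · rw [h, HMB_self]
    · obtain ⟨c, h0, h1, h2⟩ := HMB_ex hX h
      rw [h2 1, one_mul, h1]
  · by_cases h : y = p
    · rw [h, HMB_self]
    · obtain ⟨c, h0, h1, h2⟩ := HMB_ex hX h
      rw [h2 0, zero_mul, h0]
  · by_cases h : y = p
    · rw [h, HMB_self, HMB_self, HMB_self]
    · obtain ⟨c, h0, h1, h2⟩ := HMB_ex hX h
      rw [h2 t, h2 (s * t)]
      have h3 := HMB_line hX c (t * dist p y) s (mul_nonneg ht.le dist_nonneg)
      rw [h0] at h3
      rw [h3, mul_assoc]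
  · by_cases hy : y = p
    · rw [hy, HMB_self]
      exact (h6 p z t ht0).le
    · by_cases hz : z = p
      · rw [hz, HMB_self, dist_comm, dist_comm y p]
        exact (h6 p y t ht0).le
      · obtain ⟨c, h0, h1, h2⟩ := HMB_ex hX hy
        obtain ⟨c', h0', h1', h2'⟩ := HMB_ex hX hz
        have h3 := hX.convex c c' (h0.trans h0'.symm) (dist p y) (dist p z) t dist_nonneg
          dist_nonneg ht0 ht1
        rw [h1, h1'] at h3
        rw [h2 t, h2' t]
        exact h3

end Pool.Agent.MLS
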