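import Pool.Agent.Work.MP_f21b3e_ml.Interface

/-!
# Block HMC: the homotheties are jointly continuous
-/

set_option autoImplicit false

namespace Pool.Agent.MLS

open Set Topology Filter

theorem HMC_eval {X : Type} [MetricSpace X] :
    Continuous fun q : Lines X × ℝ => q.1.1 q.2 :=
  continuous_eval.comp ((continuous_subtype_val.comp continuous_fst).prodMk continuous_snd)

theorem p_HMC (hA : Stmt_ARZ) (hB : Stmt_HMB) : Stmt_HMC := by
  intro X _ hX
  obtain ⟨hB1, hB2, _, _, _, hB6, _⟩ := hB X hX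
  rintro ⟨p, t, y⟩ ht
  simp only [mem_setOf_eq] at ht
  by_cases hpy : p = y
  · subst hpy
    show Tendsto (fun q : X × ℝ × X => hm q.1 q.2.1 q.2.2) (𝓝[{q | 0 ≤ q.2.1}] (p, t, p))
      (𝓝 (hm p t p))
    rw [hB2 p t, tendsto_iff_dist_tendsto_zero]
    have h1 : Tendsto (fun q : X × ℝ × X => q.2.1 * dist q.1 q.2.2 + dist q.1 p)
        (𝓝[{q | 0 ≤ q.2.1}] (p, t, p)) (𝓝 0) := by
      have h2 : Continuous (fun q : X × ℝ × X => q.2.1 * dist q.1 q.2.2 + dist q.1 p) := by
        fun_prop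
      have h3 := (h2.tendsto (p, t, p)).mono_left
        (nhdsWithin_le_nhds (s := {q : X × ℝ × X | 0 ≤ q.2.1}))
      simpa using h3
    refine squeeze_zero' (Eventually.of_forall fun _ => dist_nonneg) ?_ h1
    filter_upwards [self_mem_nhdsWithin] with q hq
    have h4 : dist (hm q.1 q.2.1 q.2.2) q.1 = q.2.1 * dist q.1 q.2.2 := by
      rw [dist_comm]
      exact hB6 q.1 q.2.2 q.2.1 hq
    have h5 := dist_triangle (hm q.1 q.2.1 q.2.2) q.1 p
    rw [h4] at h5
    exact h5
  · obtain ⟨c₀, hc₀, hu₀⟩ := hX.line p y hpy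
    have hex : ∀ q : X × ℝ × X, ∃ c : Lines X,
        q.1 ≠ q.2.2 → c.1 0 = q.1 ∧ c.1 (dist q.1 q.2.2) = q.2.2 := by
      intro q
      by_cases hq : q.1 = q.2.2
      · exact ⟨c₀, fun h => absurd hq h⟩
      · obtain ⟨c, hc, _⟩ := hX.line q.1 q.2.2 hq
        exact ⟨c, fun _ => hc⟩
    choose u hu using hex
    show Tendsto (fun q : X × ℝ × X => hm q.1 q.2.1 q.2.2) (𝓝[{q | 0 ≤ q.2.1}] (p, t, y))
      (𝓝 (hm p t y))
    rw [tendsto_iff_ultrafilter]
    intro g hg
    have hgn : (g : Filter (X × ℝ × X)) ≤ 𝓝 (p, t, y) := hg.trans nhdsWithin_le_nhds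
    have hne : ∀ᶠ q : X × ℝ × X in g, q.1 ≠ q.2.2 := by
      have h1 : IsOpen {q : X × ℝ × X | q.1 ≠ q.2.2} :=
        isOpen_ne_fun continuous_fst (continuous_snd.comp continuous_snd)
      exact hgn (h1.mem_nhds hpy)
    have hball : ∀ᶠ q : X × ℝ × X in g, q.1 ∈ Metric.closedBall p 1 := by
      have h1 : Tendsto (fun q : X × ℝ × X => q.1) (𝓝 (p, t, y)) (𝓝 p) :=
        continuous_fst.tendsto (p, t, y)
      exact (h1.mono_left hgn).eventually (Metric.closedBall_mem_nhds p one_pos)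
    haveI := hX.proper
    have hK := hA X hX.proper (Metric.closedBall p 1) (isCompact_closedBall p 1)
    have hmem : {c : Lines X | c.1 0 ∈ Metric.closedBall p 1} ∈ g.map u := by
      rw [Ultrafilter.mem_map]
      filter_upwards [hne, hball] with q hq1 hq2
      show (u q).1 0 ∈ Metric.closedBall p 1
      rw [(hu q hq1).1]
      exact hq2
    obtain ⟨c, _, hc⟩ := hK.ultrafilter_le_nhds (g.map u) (le_principal_iff.2 hmem)
    have hcu : Tendsto u g (𝓝 c) := hc
    have ht1 : Tendsto (fun q : X × ℝ × X => q.1) g (𝓝 p) :=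
      (continuous_fst.tendsto (p, t, y)).mono_left hgn
    have ht2 : Tendsto (fun q : X × ℝ × X => q.2.1) g (𝓝 t) :=
      ((continuous_fst.comp continuous_snd).tendsto (p, t, y)).mono_left hgn
    have ht3 : Tendsto (fun q : X × ℝ × X => q.2.2) g (𝓝 y) :=
      ((continuous_snd.comp continuous_snd).tendsto (p, t, y)).mono_left hgn
    have htd : Tendsto (fun q : X × ℝ × X => dist q.1 q.2.2) g (𝓝 (dist p y)) := ht1.dist ht3
    have hc0 : c.1 0 = p := by
      have h1 : Tendsto (fun q => (u q).1 0) g (𝓝 (c.1 0)) :=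
        (HMC_eval.tendsto (c, (0 : ℝ))).comp (hcu.prodMk_nhds tendsto_const_nhds)
      have h2 : Tendsto (fun q => (u q).1 0) g (𝓝 p) :=
        ht1.congr' (hne.mono fun q hq => (hu q hq).1.symm)
      exact tendsto_nhds_unique h1 h2
    have hc1 : c.1 (dist p y) = y := by
      have h1 : Tendsto (fun q => (u q).1 (dist q.1 q.2.2)) g (𝓝 (c.1 (dist p y))) :=
        (HMC_eval.tendsto (c, dist p y)).comp (hcu.prodMk_nhds htd)
      have h2 : Tendsto (fun q => (u q).1 (dist q.1 q.2.2)) g (𝓝 y) :=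
        ht3.congr' (hne.mono fun q hq => (hu q hq).2.symm)
      exact tendsto_nhds_unique h1 h2
    have hval : hm p t y = c.1 (t * dist p y) := by
      have h := hB1 c (dist p y) t dist_nonneg
      rwa [hc0, hc1] at h
    rw [hval]
    have h3 : Tendsto (fun q => (u q).1 (q.2.1 * dist q.1 q.2.2)) g
        (𝓝 (c.1 (t * dist p y))) :=
      (HMC_eval.tendsto (c, t * dist p y)).comp (hcu.prodMk_nhds (ht2.mul htd))
    refine h3.congr' (hne.mono fun q hq => ?_)
    have h := hB1 (u q) (dist q.1 q.2.2) q.2.1 dist_nonneg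
    rw [(hu q hq).1, (hu q hq).2] at h
    exact h.symm

end Pool.Agent.MLS
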