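import Pool.Agent.Work.MP_f21b3e_ml.Interface

/-!
# Block HME: the homotheties commute with isometries
-/

set_option autoImplicit false

namespace Pool.Agent.MLS

open Set Topology

theorem p_HME (hHMB : Stmt_HMB) : Stmt_HME := by
  intro X _ hX Γ _ _ _ γ p t y
  obtain ⟨h1, h2, -⟩ := hHMB X hX
  by_cases hy : p = y
  · rw [← hy, h2, h2]
  · obtain ⟨c, ⟨hc0, hcd⟩, -⟩ := hX.line p y hy
    have h3 : hm p t y = c.1 (t * dist p y) := by
      have h4 := h1 c (dist p y) t dist_nonneg
      rw [hc0, hcd] at h4
      exact h4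
    have h5 : hm (γ • p) t (γ • y) = γ • c.1 (t * dist p y) := by
      have h6 := h1 (mv γ c) (dist p y) t dist_nonneg
      have h7 : (mv γ c).1 0 = γ • p := by
        show γ • c.1 0 = γ • p
        rw [hc0]
      have h8 : (mv γ c).1 (dist p y) = γ • y := by
        show γ • c.1 (dist p y) = γ • y
        rw [hcd]
      rw [h7, h8] at h6
      exact h6
    rw [h5, h3]

end Pool.Agent.MLS
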