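import Pool.Agent.Work.MP_f21b3e_ml.Interface

set_option autoImplicit false

namespace Pool.Agent.MLS

open Set Topology Filter

theorem ISO_hm {Y : Type} [MetricSpace Y] (hY : IsHadamard Y) (hHMC : Stmt_HMC)
    (q : Y × ℝ × Y) (hq : 0 < q.2.1) :
    ContinuousAt (fun q : Y × ℝ × Y => hm q.1 q.2.1 q.2.2) q := by
  refine (hHMC Y hY).continuousAt ?_
  have h1 : IsOpen {q : Y × ℝ × Y | 0 < q.2.1} :=
    isOpen_lt continuous_const (continuous_fst.comp continuous_snd)
  refine mem_of_superset (h1.mem_nhds hq) fun x (hx : 0 < x.2.1) => ?_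
  show 0 ≤ x.2.1
  exact hx.le

theorem p_ISO (hHMB : Stmt_HMB) (hHMC : Stmt_HMC) (hHME : Stmt_HME) : Stmt_ISO := by
  intro X Y _ _ hY Γ _ _ _ _ P _ act v hv hva f hf L M C hML hLM hLc hMc hLe hLf
  obtain ⟨-, -, b1, -, b4, -, b6⟩ := hHMB Y hY
  have hf' : ∀ (γ : Γ) (y : Y), f.symm (γ • y) = γ • f.symm y := by
    intro γ y
    apply f.injective
    rw [hf, f.apply_symm_apply, f.apply_symm_apply]
  have i1 : ∀ (p y : Y) (t : ℝ), 0 < t → hm p t⁻¹ (hm p t y) = y := by
    intro p y t ht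
    rw [b4 p y t⁻¹ t ht, inv_mul_cancel₀ ht.ne', b1]
  have i2 : ∀ (p y : Y) (t : ℝ), 0 < t → hm p t (hm p t⁻¹ y) = y := by
    intro p y t ht
    rw [b4 p y t t⁻¹ (inv_pos.mpr ht), mul_inv_cancel₀ ht.ne', b1]
  obtain ⟨H, hH⟩ : ∃ H : P × ℝ × X → Y, ∀ c t z, H (c, t, z) =
      if 0 < t then hm (v c) t (L c (f.symm (hm (v c) t⁻¹ (f z)))) else f z :=
    ⟨fun q => if 0 < q.2.1 then
      hm (v q.1) q.2.1 (L q.1 (f.symm (hm (v q.1) q.2.1⁻¹ (f q.2.2)))) else f q.2.2,
      fun c t z => rfl⟩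
  obtain ⟨G, hG⟩ : ∃ G : P × ℝ × Y → X, ∀ c t y, G (c, t, y) =
      if 0 < t then f.symm (hm (v c) t (f (M c (hm (v c) t⁻¹ y)))) else f.symm y :=
    ⟨fun q => if 0 < q.2.1 then
      f.symm (hm (v q.1) q.2.1 (f (M q.1 (hm (v q.1) q.2.1⁻¹ q.2.2)))) else f.symm q.2.2,
      fun c t y => rfl⟩
  have hH1 : ∀ c t z, 0 < t → H (c, t, z) =
      hm (v c) t (L c (f.symm (hm (v c) t⁻¹ (f z)))) := fun c t z ht => by
    rw [hH, if_pos ht]
  have hG1 : ∀ c t y, 0 < t → G (c, t, y) =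
      f.symm (hm (v c) t (f (M c (hm (v c) t⁻¹ y)))) := fun c t y ht => by
    rw [hG, if_pos ht]
  have hH0 : ∀ c z, H (c, 0, z) = f z := fun c z => by rw [hH, if_neg (lt_irrefl _)]
  have hG0 : ∀ c y, G (c, 0, y) = f.symm y := fun c y => by rw [hG, if_neg (lt_irrefl _)]
  have eH : ∀ c, ∀ t ∈ Icc (0 : ℝ) 1, ∀ z, dist (H (c, t, z)) (f z) ≤ t * C := by
    intro c t ht z
    rcases ht.1.eq_or_lt with h0 | h0
    · rw [← h0, hH0, dist_self, zero_mul]
    · rw [hH1 c t z h0]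
      have e1 : f z = hm (v c) t (f (f.symm (hm (v c) t⁻¹ (f z)))) := by
        rw [f.apply_symm_apply, i2 _ _ t h0]
      calc dist (hm (v c) t (L c (f.symm (hm (v c) t⁻¹ (f z))))) (f z)
          = dist (hm (v c) t (L c (f.symm (hm (v c) t⁻¹ (f z)))))
              (hm (v c) t (f (f.symm (hm (v c) t⁻¹ (f z))))) := by rw [← e1]
        _ ≤ t * dist (L c (f.symm (hm (v c) t⁻¹ (f z)))) (f (f.symm (hm (v c) t⁻¹ (f z)))) :=
          b6 _ _ _ t ht.1 ht.2
        _ ≤ t * C := mul_le_mul_of_nonneg_left (hLf _ _) ht.1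
  have eG : ∀ c, ∀ t ∈ Icc (0 : ℝ) 1, ∀ y, dist (f (G (c, t, y))) y ≤ t * C := by
    intro c t ht y
    rcases ht.1.eq_or_lt with h0 | h0
    · rw [← h0, hG0, f.apply_symm_apply, dist_self, zero_mul]
    · rw [hG1 c t y h0, f.apply_symm_apply]
      calc dist (hm (v c) t (f (M c (hm (v c) t⁻¹ y)))) y
          = dist (hm (v c) t (f (M c (hm (v c) t⁻¹ y)))) (hm (v c) t (hm (v c) t⁻¹ y)) := by
            rw [i2 _ _ t h0]
        _ ≤ t * dist (f (M c (hm (v c) t⁻¹ y))) (hm (v c) t⁻¹ y) := b6 _ _ _ t ht.1 ht.2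
        _ = t * dist (L c (M c (hm (v c) t⁻¹ y))) (f (M c (hm (v c) t⁻¹ y))) := by
            rw [hLM, dist_comm]
        _ ≤ t * C := mul_le_mul_of_nonneg_left (hLf _ _) ht.1
  have cpos : ∀ {Z : Type} [TopologicalSpace Z] (q : P × ℝ × Z), 0 < q.2.1 →
      {q : P × ℝ × Z | 0 < q.2.1} ∈ 𝓝 q := fun {Z} _ q hq =>
    (isOpen_lt continuous_const (continuous_fst.comp continuous_snd)).mem_nhds hq
  have cH : ContinuousOn H {q | q.2.1 ∈ Icc 0 1} := by
    rintro ⟨c, t, z⟩ ht
    have ht' : t ∈ Icc (0 : ℝ) 1 := ht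
    rcases ht'.1.eq_or_lt with h0 | h0
    · subst h0
      rw [ContinuousWithinAt, hH0, tendsto_iff_dist_tendsto_zero]
      have h1 : Tendsto (fun q : P × ℝ × X => q.2.1 * C + dist (f q.2.2) (f z))
          (𝓝[{q | q.2.1 ∈ Icc 0 1}] (c, 0, z)) (𝓝 0) := by
        have h2 : Continuous (fun q : P × ℝ × X => q.2.1 * C + dist (f q.2.2) (f z)) := by
          fun_prop
        have h3 := h2.tendsto (c, 0, z)
        simp only [zero_mul, dist_self, add_zero] at h3
        exact h3.mono_left nhdsWithin_le_nhds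
      refine squeeze_zero' (Eventually.of_forall fun q => dist_nonneg) ?_ h1
      filter_upwards [self_mem_nhdsWithin] with q hq
      exact (dist_triangle _ (f q.2.2) _).trans (add_le_add (eH q.1 q.2.1 hq q.2.2) le_rfl)
    · refine ContinuousAt.continuousWithinAt ?_
      have g1 : ContinuousAt (fun q : P × ℝ × X => hm (v q.1) q.2.1⁻¹ (f q.2.2)) (c, t, z) := by
        have g2 : ContinuousAt (fun q : P × ℝ × X => (v q.1, q.2.1⁻¹, f q.2.2)) (c, t, z) := by
          refine ContinuousAt.prodMk (hv.comp continuous_fst).continuousAt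
            (ContinuousAt.prodMk ?_ (f.continuous.comp (continuous_snd.comp
              continuous_snd)).continuousAt)
          exact (continuous_fst.comp continuous_snd).continuousAt.inv₀ h0.ne'
        exact ContinuousAt.comp (f := fun q : P × ℝ × X => (v q.1, q.2.1⁻¹, f q.2.2))
          (ISO_hm hY hHMC (v c, t⁻¹, f z) (inv_pos.mpr h0)) g2
      have g3 : ContinuousAt (fun q : P × ℝ × X =>
          L q.1 (f.symm (hm (v q.1) q.2.1⁻¹ (f q.2.2)))) (c, t, z) := by
        have g4 : ContinuousAt (fun q : P × ℝ × X =>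
            (q.1, f.symm (hm (v q.1) q.2.1⁻¹ (f q.2.2)))) (c, t, z) :=
          continuous_fst.continuousAt.prodMk (f.symm.continuous.continuousAt.comp g1)
        exact ContinuousAt.comp (f := fun q : P × ℝ × X =>
            (q.1, f.symm (hm (v q.1) q.2.1⁻¹ (f q.2.2)))) hLc.continuousAt g4
      have g5 : ContinuousAt (fun q : P × ℝ × X => hm (v q.1) q.2.1
          (L q.1 (f.symm (hm (v q.1) q.2.1⁻¹ (f q.2.2))))) (c, t, z) := by
        have g6 : ContinuousAt (fun q : P × ℝ × X => (v q.1, q.2.1,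
            L q.1 (f.symm (hm (v q.1) q.2.1⁻¹ (f q.2.2))))) (c, t, z) :=
          (hv.comp continuous_fst).continuousAt.prodMk
            ((continuous_fst.comp continuous_snd).continuousAt.prodMk g3)
        exact ContinuousAt.comp (f := fun q : P × ℝ × X => (v q.1, q.2.1,
            L q.1 (f.symm (hm (v q.1) q.2.1⁻¹ (f q.2.2)))))
          (ISO_hm hY hHMC (v c, t, L c (f.symm (hm (v c) t⁻¹ (f z)))) h0) g6
      refine g5.congr ?_
      filter_upwards [cpos (c, t, z) h0] with q hq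
      exact (hH1 q.1 q.2.1 q.2.2 hq).symm
  have cG : ContinuousOn G {q | q.2.1 ∈ Icc 0 1} := by
    rintro ⟨c, t, y⟩ ht
    have ht' : t ∈ Icc (0 : ℝ) 1 := ht
    rcases ht'.1.eq_or_lt with h0 | h0
    · subst h0
      have h4 : Tendsto (fun q => f (G q)) (𝓝[{q | q.2.1 ∈ Icc 0 1}] (c, 0, y)) (𝓝 y) := by
        rw [tendsto_iff_dist_tendsto_zero]
        have h1 : Tendsto (fun q : P × ℝ × Y => q.2.1 * C + dist q.2.2 y)
            (𝓝[{q | q.2.1 ∈ Icc 0 1}] (c, 0, y)) (𝓝 0) := by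
          have h2 : Continuous (fun q : P × ℝ × Y => q.2.1 * C + dist q.2.2 y) := by
            fun_prop
          have h3 := h2.tendsto (c, 0, y)
          simp only [zero_mul, dist_self, add_zero] at h3
          exact h3.mono_left nhdsWithin_le_nhds
        refine squeeze_zero' (Eventually.of_forall fun q => dist_nonneg) ?_ h1
        filter_upwards [self_mem_nhdsWithin] with q hq
        exact (dist_triangle _ q.2.2 _).trans (add_le_add (eG q.1 q.2.1 hq q.2.2) le_rfl)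
      have h5 : Tendsto (fun q => f.symm (f (G q)))
          (𝓝[{q | q.2.1 ∈ Icc 0 1}] (c, 0, y)) (𝓝 (f.symm y)) :=
        (f.symm.continuous.tendsto y).comp h4
      rw [ContinuousWithinAt, hG0]
      refine h5.congr fun q => ?_
      rw [f.symm_apply_apply]
    · refine ContinuousAt.continuousWithinAt ?_
      have g1 : ContinuousAt (fun q : P × ℝ × Y => hm (v q.1) q.2.1⁻¹ q.2.2) (c, t, y) := by
        have g2 : ContinuousAt (fun q : P × ℝ × Y => (v q.1, q.2.1⁻¹, q.2.2)) (c, t, y) := by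
          refine ContinuousAt.prodMk (hv.comp continuous_fst).continuousAt
            (ContinuousAt.prodMk ?_ (continuous_snd.comp continuous_snd).continuousAt)
          exact (continuous_fst.comp continuous_snd).continuousAt.inv₀ h0.ne'
        exact ContinuousAt.comp (f := fun q : P × ℝ × Y => (v q.1, q.2.1⁻¹, q.2.2))
          (ISO_hm hY hHMC (v c, t⁻¹, y) (inv_pos.mpr h0)) g2
      have g3 : ContinuousAt (fun q : P × ℝ × Y =>
          f (M q.1 (hm (v q.1) q.2.1⁻¹ q.2.2))) (c, t, y) := by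
        have g4 : ContinuousAt (fun q : P × ℝ × Y =>
            (q.1, hm (v q.1) q.2.1⁻¹ q.2.2)) (c, t, y) :=
          continuous_fst.continuousAt.prodMk g1
        exact f.continuous.continuousAt.comp (ContinuousAt.comp (f := fun q : P × ℝ × Y =>
            (q.1, hm (v q.1) q.2.1⁻¹ q.2.2)) hMc.continuousAt g4)
      have g5 : ContinuousAt (fun q : P × ℝ × Y => f.symm (hm (v q.1) q.2.1
          (f (M q.1 (hm (v q.1) q.2.1⁻¹ q.2.2))))) (c, t, y) := by
        have g6 : ContinuousAt (fun q : P × ℝ × Y => (v q.1, q.2.1,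
            f (M q.1 (hm (v q.1) q.2.1⁻¹ q.2.2)))) (c, t, y) :=
          (hv.comp continuous_fst).continuousAt.prodMk
            ((continuous_fst.comp continuous_snd).continuousAt.prodMk g3)
        have g7 : ContinuousAt (fun q : P × ℝ × Y => hm (v q.1) q.2.1
            (f (M q.1 (hm (v q.1) q.2.1⁻¹ q.2.2)))) (c, t, y) :=
          ContinuousAt.comp (g := fun q : Y × ℝ × Y => hm q.1 q.2.1 q.2.2)
            (f := fun q : P × ℝ × Y => (v q.1, q.2.1, f (M q.1 (hm (v q.1) q.2.1⁻¹ q.2.2))))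
            (ISO_hm hY hHMC (v c, t, f (M c (hm (v c) t⁻¹ y))) h0) g6
        exact f.symm.continuous.continuousAt.comp g7
      refine g5.congr ?_
      filter_upwards [cpos (c, t, y) h0] with q hq
      exact (hG1 q.1 q.2.1 q.2.2 hq).symm
  refine ⟨H, G, cH, cG, ?_, ?_, hH0, ?_, ?_, eH⟩
  · intro c t ht z
    rcases ht.1.eq_or_lt with h0 | h0
    · rw [← h0, hH0, hG0, f.symm_apply_apply]
    · rw [hG1 c t _ h0, hH1 c t z h0, i1 _ _ t h0, hML, f.apply_symm_apply, i2 _ _ t h0,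
        f.symm_apply_apply]
  · intro c t ht y
    rcases ht.1.eq_or_lt with h0 | h0
    · rw [← h0, hG0, hH0, f.apply_symm_apply]
    · rw [hH1 c t _ h0, hG1 c t y h0, f.apply_symm_apply, i1 _ _ t h0, f.symm_apply_apply, hLM,
        i2 _ _ t h0]
  · intro c z
    rw [hH1 c 1 z one_pos, inv_one, b1, b1, f.symm_apply_apply]
  · intro γ c t ht z
    rcases ht.1.eq_or_lt with h0 | h0
    · rw [← h0, hH0, hH0, hf]
    · rw [hH1 _ t _ h0, hH1 c t z h0, hva, hf, hHME Y hY Γ, hf', hLe, hHME Y hY Γ]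

end Pool.Agent.MLS
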