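import Pool.Agent.Work.MP_f21b3e_ml.Assembly
import Pool.Agent.Work.MP_f21b3e_ml.B_ARZ
import Pool.Agent.Work.MP_f21b3e_ml.B_HMB
import Pool.Agent.Work.MP_f21b3e_ml.B_HMC
import Pool.Agent.Work.MP_f21b3e_ml.B_HME
import Pool.Agent.Work.MP_f21b3e_ml.B_AUN
import Pool.Agent.Work.MP_f21b3e_ml.B_AEX
import Pool.Agent.Work.MP_f21b3e_ml.B_ACO
import Pool.Agent.Work.MP_f21b3e_ml.B_BND
import Pool.Agent.Work.MP_f21b3e_ml.B_FAS
import Pool.Agent.Work.MP_f21b3e_ml.B_LFM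
import Pool.Agent.Work.MP_f21b3e_ml.B_ISO

/-!
# The isotopy theorem
-/

set_option autoImplicit false

namespace Pool.Agent.MLS

theorem stmt_MAIN : Stmt_MAIN :=
  have aex := p_AEX p_ARZ
  have aco := p_ACO p_ARZ p_AUN aex
  have bnd := p_BND p_ARZ
  have fas := p_FAS bnd
  main_of p_AUN aco fas (p_LFM p_AUN aco bnd fas)
    (p_ISO p_HMB (p_HMC p_ARZ p_HMB) (p_HME p_HMB))

end Pool.Agent.MLS
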