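import Pool.Agent.Work.MP_f21b3e_ml.Defs

/-!
# Closed negatively curved manifolds, marked length spectrum, and the published theorems used

A closed negatively curved manifold with fundamental group `Γ` is given by its Riemannian universal
cover `X` with the action of `Γ`: `M = X/Γ`.  Two such manifolds with an isomorphism of the
fundamental groups are two objects with the same `Γ`.  All manifolds are modelled on a real normed
space `E` of finite dimension `n` (they have no boundary).
-/

set_option autoImplicit false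

namespace Pool.Agent.MLS

open Set Topology Bundle
open scoped Manifold ContDiff

/-! ## Smooth manifolds and maps -/

/-- Smooth (`C^∞`) on the open set `U`. -/
def SmoothOn (E : Type) {X Y : Type} [NormedAddCommGroup E] [NormedSpace ℝ E]
    [TopologicalSpace X] [ChartedSpace E X] [TopologicalSpace Y] [ChartedSpace E Y]
    (f : X → Y) (U : Set X) : Prop :=
  ContMDiffOn 𝓘(ℝ, E) 𝓘(ℝ, E) ∞ f U

/-- A smooth Riemannian metric on `X`. -/
def RMetric (E X : Type) [NormedAddCommGroup E] [NormedSpace ℝ E] [TopologicalSpace X]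
    [ChartedSpace E X] [IsManifold 𝓘(ℝ, E) ∞ X] : Type :=
  ContMDiffRiemannianMetric 𝓘(ℝ, E) ∞ E (fun x : X => TangentSpace 𝓘(ℝ, E) x)

/-- The distance of `X` is the infimum of the lengths of paths for the Riemannian metric `g`. -/
def IsRDist (E X : Type) [NormedAddCommGroup E] [NormedSpace ℝ E] [MetricSpace X]
    [ChartedSpace E X] [IsManifold 𝓘(ℝ, E) ∞ X] (g : RMetric E X) : Prop :=
  letI : RiemannianBundle (fun x : X => TangentSpace 𝓘(ℝ, E) x) :=
    ⟨ContMDiffRiemannianMetric.toRiemannianMetric g⟩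
  IsRiemannianManifold 𝓘(ℝ, E) X

/-- The action of `Γ` on `X` is smooth, free and properly discontinuous (so `X/Γ` is a smooth
manifold). -/
def IsDeck (E Γ X : Type) [NormedAddCommGroup E] [NormedSpace ℝ E] [Group Γ]
    [TopologicalSpace X] [ChartedSpace E X] [MulAction Γ X] : Prop :=
  (∀ γ : Γ, SmoothOn E (fun x : X => γ • x) univ) ∧ (∀ (γ : Γ) (x : X), γ • x = x → γ = 1) ∧
    ∀ K : Set X, IsCompact K → {γ : Γ | ∃ x ∈ K, γ • x ∈ K}.Finite

/-- The maps `f p : X → Y`, `p ∈ U`, are `C^1` with invertible differentials. -/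
def C1Maps (E : Type) {P X Y : Type} [NormedAddCommGroup E] [NormedSpace ℝ E]
    [TopologicalSpace X] [ChartedSpace E X] [TopologicalSpace Y] [ChartedSpace E Y] (U : Set P)
    (f : P → X → Y) : Prop :=
  ∀ p ∈ U, ContMDiff 𝓘(ℝ, E) 𝓘(ℝ, E) 1 (f p) ∧
    ∀ x, Function.Bijective (mfderiv 𝓘(ℝ, E) 𝓘(ℝ, E) (f p) x)

/-- The differential of `f p : X → Y` is continuous in all variables for `p ∈ U`. -/
def ContDifferentials (E : Type) {P X Y : Type} [NormedAddCommGroup E] [NormedSpace ℝ E]
    [TopologicalSpace P] [TopologicalSpace X] [ChartedSpace E X] [IsManifold 𝓘(ℝ, E) ∞ X]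
    [TopologicalSpace Y] [ChartedSpace E Y] [IsManifold 𝓘(ℝ, E) ∞ Y] (U : Set P)
    (f : P → X → Y) : Prop :=
  ContinuousOn (fun q : P × TangentBundle 𝓘(ℝ, E) X =>
    tangentMap 𝓘(ℝ, E) 𝓘(ℝ, E) (f q.1) q.2) (U ×ˢ univ)

/-- The maps `f p : X → Y`, `p ∈ U`, are `C^1` with invertible differentials, and the differential
is continuous in all variables. -/
def C1Family (E : Type) {P X Y : Type} [NormedAddCommGroup E] [NormedSpace ℝ E]
    [TopologicalSpace P] [TopologicalSpace X] [ChartedSpace E X] [IsManifold 𝓘(ℝ, E) ∞ X]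
    [TopologicalSpace Y] [ChartedSpace E Y] [IsManifold 𝓘(ℝ, E) ∞ Y] (U : Set P)
    (f : P → X → Y) : Prop :=
  C1Maps E U f ∧ ContDifferentials E U f

/-- `Φ : U → V` is a `Γ`-equivariant `C^∞` diffeomorphism (with inverse `Ψ`). -/
def IsEquivDiffeo (E Γ : Type) {X Y : Type} [NormedAddCommGroup E] [NormedSpace ℝ E] [Group Γ]
    [TopologicalSpace X] [ChartedSpace E X] [MulAction Γ X]
    [TopologicalSpace Y] [ChartedSpace E Y] [MulAction Γ Y] (U : Set X) (V : Set Y)
    (Φ : X → Y) (Ψ : Y → X) : Prop :=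
  SmoothOn E Φ U ∧ SmoothOn E Ψ V ∧ MapsTo Φ U V ∧ MapsTo Ψ V U ∧
    (∀ x ∈ U, Ψ (Φ x) = x) ∧ (∀ y ∈ V, Φ (Ψ y) = y) ∧
    ∀ (γ : Γ), ∀ x ∈ U, Φ (γ • x) = γ • Φ x

/-! ## Closed negatively curved manifolds -/

/-- In the hyperbolic plane of curvature `-κ²`: for a triangle with the sides `a`, `b`, `e` the
hyperbolic cosine of `κ` times the distance of the points at distance `s a` and `t b` from the common
vertex of the sides `a` and `b` (law of cosines, twice). -/
noncomputable def comparison (κ a b e s t : ℝ) : ℝ :=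
  Real.cosh (κ * (s * a)) * Real.cosh (κ * (t * b)) -
    Real.sinh (κ * (s * a)) * Real.sinh (κ * (t * b)) *
      ((Real.cosh (κ * a) * Real.cosh (κ * b) - Real.cosh (κ * e)) /
        (Real.sinh (κ * a) * Real.sinh (κ * b)))

/-- Curvature at most `-κ²` (triangle comparison, CAT(`-κ²`)). -/
def CurvLE (X : Type) [MetricSpace X] (κ : ℝ) : Prop :=
  ∀ c c' : Lines X, c.1 0 = c'.1 0 → ∀ a b s t : ℝ, 0 < a → 0 < b → 0 ≤ s → s ≤ 1 → 0 ≤ t →
    t ≤ 1 → Real.cosh (κ * dist (c.1 (s * a)) (c'.1 (t * b))) ≤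
      comparison κ a b (dist (c.1 a) (c'.1 b)) s t

/-- Curvature at least `-κ²` (triangle comparison, Toponogov). -/
def CurvGE (X : Type) [MetricSpace X] (κ : ℝ) : Prop :=
  ∀ c c' : Lines X, c.1 0 = c'.1 0 → ∀ a b s t : ℝ, 0 < a → 0 < b → 0 ≤ s → s ≤ 1 → 0 ≤ t →
    t ≤ 1 → comparison κ a b (dist (c.1 a) (c'.1 b)) s t ≤
      Real.cosh (κ * dist (c.1 (s * a)) (c'.1 (t * b)))

/-- A closed negatively curved smooth Riemannian manifold with fundamental group `Γ`, modelled on
`E`, given by its Riemannian universal cover `X` with the free, properly discontinuous, cocompact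
action of `Γ` by smooth isometries. -/
structure NegManifold (E Γ : Type) [NormedAddCommGroup E] [NormedSpace ℝ E] [Group Γ] where
  X : Type
  [met : MetricSpace X]
  [chart : ChartedSpace E X]
  [man : IsManifold 𝓘(ℝ, E) ∞ X]
  [act : MulAction Γ X]
  [iso : IsIsometricSMul Γ X]
  [ne : Nonempty X]
  /-- the Riemannian metric -/
  metric : RMetric E X
  /-- the distance is the infimum of the lengths of paths -/
  riem : IsRDist E X metric
  /-- `X` is complete and simply connected of nonpositive curvature -/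
  hadamard : IsHadamard X
  /-- negative curvature (bounded away from zero, because `X/Γ` is compact) -/
  neg : ∃ κ : ℝ, 0 < κ ∧ CurvLE X κ
  /-- `Γ` is the group of deck transformations of `X → M` -/
  deck : IsDeck E Γ X
  /-- `M` is compact -/
  cocompact : ∃ K : Set X, IsCompact K ∧ ∀ x : X, ∃ γ : Γ, γ • x ∈ K

attribute [instance] NegManifold.met NegManifold.chart NegManifold.man NegManifold.act
  NegManifold.iso NegManifold.ne

section

variable {E Γ : Type} [NormedAddCommGroup E] [NormedSpace ℝ E] [Group Γ]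

/-- The length of the closed geodesic in the free homotopy class of `γ`: the least displacement
of `γ` on the universal cover. -/
noncomputable def len (M : NegManifold E Γ) (γ : Γ) : ℝ := ⨅ x : M.X, dist x (γ • x)

/-- The same marked length spectrum. -/
def SameSpectrum (M N : NegManifold E Γ) : Prop := ∀ γ : Γ, len M γ = len N γ

/-- Strictly quarter pinched: the sectional curvature is in `[-b², -a²]` with
`0 < a ≤ b < 2 a`. -/
def QuarterPinched (M : NegManifold E Γ) : Prop :=
  ∃ a b : ℝ, 0 < a ∧ a ≤ b ∧ b < 2 * a ∧ CurvLE M.X a ∧ CurvGE M.X b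

/-- The conjugacy `F` is continuously differentiable along the weak stable leaves, with invertible
derivatives: the leaf maps are a `C^1` family. -/
def C1Leaves {M N : NegManifold E Γ} (F : Lines M.X ≃ₜ Lines N.X) : Prop :=
  ∃ L : Lines M.X → M.X → N.X, LeafMaps F L ∧ C1Family E univ L

/-- `s` is a continuous field of directions on the invariant set `U`: to `x` in `U` it
attaches a line `s(x)` with `s(x)(0) = x` (that is, a unit tangent vector at `x`), and it is
invariant under `Γ`. -/
def DirectionField (M : NegManifold E Γ) (U : Set M.X) (s : M.X → Lines M.X) : Prop :=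
  ContinuousOn s U ∧ (∀ x ∈ U, (s x).1 0 = x) ∧ ∀ (γ : Γ), ∀ x ∈ U, s (γ • x) = mv γ (s x)

/-- The complement of the orbit of `x₀`: the preimage in `X` of `M` minus a point. -/
def offOrbit (M : NegManifold E Γ) (x₀ : M.X) : Set M.X :=
  {x | ∀ γ : Γ, γ • x₀ ≠ x}

end

/-! ## The published theorems -/

/-- **Farrell-Jones** (topological rigidity, 1989, 1991): closed negatively curved manifolds of
dimension `≥ 5` with the same fundamental group are homeomorphic by a homeomorphism which induces
the given isomorphism of the fundamental groups; on the universal covers: an equivariant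
homeomorphism. -/
def FarrellJones : Prop :=
  ∀ (E Γ : Type) [NormedAddCommGroup E] [NormedSpace ℝ E] [Group Γ],
    5 ≤ Module.finrank ℝ E → ∀ M N : NegManifold E Γ,
    ∃ f : M.X ≃ₜ N.X, ∀ (γ : Γ) (x : M.X), f (γ • x) = γ • f x

/-- **Conjugacy of the geodesic flows** (Hamenstaedt 1992; differentiability: Hirsch-Pugh 1975,
Feldman-Ornstein 1987, Hamenstaedt 1993): closed negatively curved manifolds with the same marked
length spectrum have conjugate geodesic flows, and under strict quarter pinching (which makes the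
stable and unstable foliations `C^1`) the conjugacy is `C^1` along the weak stable leaves. -/
def ConjugacyTheorem : Prop :=
  ∀ (E Γ : Type) [NormedAddCommGroup E] [NormedSpace ℝ E] [Group Γ],
    5 ≤ Module.finrank ℝ E → ∀ M N : NegManifold E Γ, QuarterPinched M → QuarterPinched N →
    SameSpectrum M N → ∃ F : Lines M.X ≃ₜ Lines N.X, Conjugacy Γ F ∧ C1Leaves F

/-- **Hopf 1927**: a closed manifold of odd dimension has a continuous vector field without zeros,
and every closed connected manifold has one on the complement of a point. -/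
def HopfTheorem : Prop :=
  ∀ (E Γ : Type) [NormedAddCommGroup E] [NormedSpace ℝ E] [Group Γ],
    5 ≤ Module.finrank ℝ E → ∀ M : NegManifold E Γ,
    (Odd (Module.finrank ℝ E) → ∃ s : M.X → Lines M.X, DirectionField M univ s) ∧
    ∀ x₀ : M.X, ∃ s : M.X → Lines M.X, DirectionField M (offOrbit M x₀) s

/-- A continuous equivariant family of homeomorphisms `H(t, x, ·) : X → Y` (with inverses
`G(t, x, ·)`), `0 ≤ t ≤ 1`, `x ∈ U`, with `H(0, x, ·) = f`: the germs at `x` are a homotopy,
through isomorphisms of the tangent microbundles of `U/Γ` and `Y/Γ`, of the one given by `f`. -/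
structure GermHomotopy (Γ : Type) {X Y : Type} [Group Γ] [TopologicalSpace X] [MulAction Γ X]
    [TopologicalSpace Y] [MulAction Γ Y] (f : X ≃ₜ Y) (U : Set X) (H : ℝ × X × X → Y)
    (G : ℝ × X × Y → X) : Prop where
  cont : ContinuousOn H (Icc 0 1 ×ˢ U ×ˢ univ)
  contInv : ContinuousOn G (Icc 0 1 ×ˢ U ×ˢ univ)
  left : ∀ t ∈ Icc (0 : ℝ) 1, ∀ x ∈ U, ∀ z, G (t, x, H (t, x, z)) = z
  right : ∀ t ∈ Icc (0 : ℝ) 1, ∀ x ∈ U, ∀ y, H (t, x, G (t, x, y)) = y
  zero : ∀ x ∈ U, ∀ z, H (0, x, z) = f z
  equiv : ∀ (γ : Γ), ∀ t ∈ Icc (0 : ℝ) 1, ∀ x ∈ U, ∀ z, H (t, γ • x, γ • z) = γ • H (t, x, z)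

/-- **Kirby-Siebenmann** (Foundational Essays, Essay IV, 4.1): the smooth structures on a topological
manifold of dimension `n ≥ 5` are classified, up to isotopy, by the reductions of its tangent
microbundle to a vector bundle.  Here for the manifolds `U/Γ` and `f(U)/Γ`, `f : X → Y` an
equivariant homeomorphism: if a homotopy of isomorphisms of tangent microbundles joins the one
given by `f` to one which is continuously differentiable on the fibres, then `f : U/Γ → f(U)/Γ` is
isotopic to a diffeomorphism. -/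
def KirbySiebenmann : Prop :=
  ∀ (E Γ X Y : Type) [NormedAddCommGroup E] [NormedSpace ℝ E] [Group Γ]
    [TopologicalSpace X] [T2Space X] [SecondCountableTopology X]
    [ChartedSpace E X] [IsManifold 𝓘(ℝ, E) ∞ X] [MulAction Γ X]
    [TopologicalSpace Y] [T2Space Y] [SecondCountableTopology Y]
    [ChartedSpace E Y] [IsManifold 𝓘(ℝ, E) ∞ Y] [MulAction Γ Y],
    5 ≤ Module.finrank ℝ E → IsDeck E Γ X → IsDeck E Γ Y →
    ∀ f : X ≃ₜ Y, (∀ (γ : Γ) (x : X), f (γ • x) = γ • f x) →
    ∀ U : Set X, IsOpen U → (∀ (γ : Γ), ∀ x ∈ U, γ • x ∈ U) →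
    ∀ (H : ℝ × X × X → Y) (G : ℝ × X × Y → X), GermHomotopy Γ f U H G →
      C1Family E U (fun x z => H (1, x, z)) →
      ∃ (Φ : X → Y) (Ψ : Y → X), IsEquivDiffeo E Γ U (f '' U) Φ Ψ

/-- **Kervaire-Milnor 1963, Isaksen-Wang-Xu** (the spheres of dimension 6, 12, 56 have only one
smooth structure; with the h-cobordism theorem): in these dimensions a diffeomorphism of `M` minus
a point onto `N` minus a point can be changed near the missing point so that it extends to a
diffeomorphism of `M` onto `N`. -/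
def KervaireMilnor : Prop :=
  ∀ (E Γ : Type) [NormedAddCommGroup E] [NormedSpace ℝ E] [Group Γ],
    (Module.finrank ℝ E = 6 ∨ Module.finrank ℝ E = 12 ∨ Module.finrank ℝ E = 56) →
    ∀ (M N : NegManifold E Γ) (x₀ : M.X) (y₀ : N.X) (Φ : M.X → N.X) (Ψ : N.X → M.X),
      IsEquivDiffeo E Γ (offOrbit M x₀) (offOrbit N y₀) Φ Ψ →
      ∃ (Φ' : M.X → N.X) (Ψ' : N.X → M.X), IsEquivDiffeo E Γ univ univ Φ' Ψ'

end Pool.Agent.MLS
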