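import Pool.Agent.Work.MP_f21b3e_ml.Interface
import Pool.Agent.Work.MP_f21b3e_ml.Facts

/-!
# Assembly from the blocks
-/

set_option autoImplicit false

namespace Pool.Agent.MLS

open Set Topology Bundle
open scoped Manifold ContDiff

/-- The isotopy theorem, from the blocks. -/
def Stmt_MAIN : Prop :=
  ∀ (X Y : Type) [MetricSpace X] [MetricSpace Y], IsHadamard X → IsHadamard Y →
    ∀ (Γ : Type) [Group Γ] [MulAction Γ X] [MulAction Γ Y] [IsIsometricSMul Γ X]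
    [IsIsometricSMul Γ Y], (∃ K : Set X, IsCompact K ∧ ∀ x : X, ∃ γ : Γ, γ • x ∈ K) →
    ∀ f : X ≃ₜ Y, (∀ (γ : Γ) (x : X), f (γ • x) = γ • f x) →
    ∀ F : Lines X ≃ₜ Lines Y, Conjugacy Γ F →
      (∀ (c : Lines X) (x : X), ∃! d : Lines X, Asy c d ∧ d.1 0 = x) ∧
      (∀ c d : Lines X, Asy c d ↔ Asy (F c) (F d)) ∧
      ∃ (L : Lines X → X → Y) (H : Lines X × ℝ × X → Y) (G : Lines X × ℝ × Y → X) (C : ℝ),
        LeafMaps F L ∧ (∀ c d x, Asy c d → L c x = L d x) ∧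
        ContinuousOn H {q | q.2.1 ∈ Icc 0 1} ∧ ContinuousOn G {q | q.2.1 ∈ Icc 0 1} ∧
        (∀ c, ∀ t ∈ Icc (0 : ℝ) 1, ∀ z, G (c, t, H (c, t, z)) = z) ∧
        (∀ c, ∀ t ∈ Icc (0 : ℝ) 1, ∀ y, H (c, t, G (c, t, y)) = y) ∧
        (∀ c z, H (c, 0, z) = f z) ∧ (∀ c z, H (c, 1, z) = L c z) ∧
        (∀ (γ : Γ) (c : Lines X), ∀ t ∈ Icc (0 : ℝ) 1, ∀ z,
          H (mv γ c, t, γ • z) = γ • H (c, t, z)) ∧
        ∀ c, ∀ t ∈ Icc (0 : ℝ) 1, ∀ z, dist (H (c, t, z)) (f z) ≤ t * C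

theorem main_of (hAUN : Stmt_AUN) (hACO : Stmt_ACO) (hFAS : Stmt_FAS) (hLFM : Stmt_LFM)
    (hISO : Stmt_ISO) : Stmt_MAIN := by
  intro X Y _ _ hX hY Γ _ _ _ _ _ hco f hf F hF
  obtain ⟨L, M, C, hL, hML, hLM, hLc, hMc, hLe, hC, hLA⟩ := hLFM X Y hX hY Γ hco f hf F hF
  obtain ⟨H, G, hH, hG, hGH, hHG, h0, h1, he, hd⟩ := hISO X Y hY Γ (Lines X) mv
    (fun c => f (c.1 0)) (f.continuous.comp
      ((ContinuousEvalConst.continuous_eval_const (0 : ℝ)).comp continuous_subtype_val))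
    (fun γ c => hf γ (c.1 0)) f hf L M C hML hLM hLc hMc hLe hC
  refine ⟨?_, hFAS X Y hX hY Γ hco f hf F hF, L, H, G, C, hL, fun c d x h => hLA c d x h, hH, hG,
    hGH, hHG, h0, h1, he, hd⟩
  intro c x
  obtain ⟨a, ha0, haA, -, -⟩ := hACO X hX
  refine ⟨a c x, ⟨haA c x, ha0 c x⟩, ?_⟩
  rintro d ⟨hd, hdx⟩
  apply hAUN X hX
  · rw [hdx, ha0]
  · obtain ⟨C₁, h₁⟩ := hd
    obtain ⟨C₂, h₂⟩ := haA c x
    refine ⟨C₁ + C₂, fun t ht => ?_⟩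
    calc dist (d.1 t) ((a c x).1 t) ≤ dist (d.1 t) (c.1 t) + dist (c.1 t) ((a c x).1 t) :=
          dist_triangle _ _ _
      _ ≤ C₁ + C₂ := by
          rw [dist_comm (d.1 t)]
          exact add_le_add (h₁ t ht) (h₂ t ht)

theorem diffeo_of (hMAIN : Stmt_MAIN) (hKS : KirbySiebenmann) (E Γ : Type)
    [NormedAddCommGroup E] [NormedSpace ℝ E] [Group Γ] (hn : 5 ≤ Module.finrank ℝ E)
    (M N : NegManifold E Γ) (f : M.X ≃ₜ N.X)
    (hf : ∀ (γ : Γ) (x : M.X), f (γ • x) = γ • f x) (F : Lines M.X ≃ₜ Lines N.X)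
    (hF : Conjugacy Γ F) (hC : C1Leaves F) (U : Set M.X) (hU : IsOpen U)
    (hUΓ : ∀ (γ : Γ), ∀ x ∈ U, γ • x ∈ U) (s : M.X → Lines M.X) (hs : DirectionField M U s) :
    ∃ (Φ : M.X → N.X) (Ψ : N.X → M.X), IsEquivDiffeo E Γ U (f '' U) Φ Ψ := by
  have := M.hadamard.proper
  have := N.hadamard.proper
  obtain ⟨hex, -, L, H, G, C, hL, -, hH, hG, hGH, hHG, h0, h1, he, -⟩ :=
    hMAIN M.X N.X M.hadamard N.hadamard Γ M.cocompact f hf F hF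
  obtain ⟨L', hL', hd1, hd3⟩ := hC
  have hLL : L' = L := by
    funext c x
    obtain ⟨d, ⟨hcd, hdx⟩, -⟩ := hex c x
    rw [← hdx, hL' c d hcd, hL c d hcd]
  subst hLL
  obtain ⟨hsc, -, hse⟩ := hs
  have hH1 : ∀ x, (fun z => H (s x, 1, z)) = L' (s x) := fun x => funext fun z => h1 (s x) z
  refine hKS E Γ M.X N.X hn M.deck N.deck f hf U hU hUΓ
    (fun q => H (s q.2.1, q.1, q.2.2)) (fun q => G (s q.2.1, q.1, q.2.2)) ⟨?_, ?_,
      fun t ht x _ z => hGH (s x) t ht z, fun t ht x _ y => hHG (s x) t ht y,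
      fun x _ z => h0 (s x) z, fun γ t ht x hx z => ?_⟩ ⟨fun x _ => ?_, ?_⟩
  · refine hH.comp (ContinuousOn.prodMk (hsc.comp (by fun_prop) ?_) (by fun_prop)) ?_
    · rintro ⟨t, x, z⟩ ⟨-, hx, -⟩
      exact hx
    · rintro ⟨t, x, z⟩ ⟨ht, -, -⟩
      exact ht
  · refine hG.comp (ContinuousOn.prodMk (hsc.comp (by fun_prop) ?_) (by fun_prop)) ?_
    · rintro ⟨t, x, z⟩ ⟨-, hx, -⟩
      exact hx
    · rintro ⟨t, x, z⟩ ⟨ht, -, -⟩
      exact ht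
  · show H (s (γ • x), t, γ • z) = γ • H (s x, t, z)
    rw [hse γ x hx]
    exact he γ (s x) t ht z
  · show ContMDiff 𝓘(ℝ, E) 𝓘(ℝ, E) 1 (fun z => H (s x, 1, z)) ∧
      ∀ z, Function.Bijective (mfderiv 𝓘(ℝ, E) 𝓘(ℝ, E) (fun z => H (s x, 1, z)) z)
    rw [hH1 x]
    exact hd1 (s x) (mem_univ _)
  · have : (fun q : M.X × TangentBundle 𝓘(ℝ, E) M.X =>
        tangentMap 𝓘(ℝ, E) 𝓘(ℝ, E) (fun z => H (s q.1, 1, z)) q.2) =
        (fun q : Lines M.X × TangentBundle 𝓘(ℝ, E) M.X =>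
          tangentMap 𝓘(ℝ, E) 𝓘(ℝ, E) (L' q.1) q.2) ∘ fun q => (s q.1, q.2) := by
      funext q
      show tangentMap 𝓘(ℝ, E) 𝓘(ℝ, E) (fun z => H (s q.1, 1, z)) q.2 = _
      rw [hH1 q.1]
      rfl
    show ContinuousOn (fun q : M.X × TangentBundle 𝓘(ℝ, E) M.X =>
        tangentMap 𝓘(ℝ, E) 𝓘(ℝ, E) (fun z => H (s q.1, 1, z)) q.2) (U ×ˢ univ)
    rw [this]
    refine ContinuousOn.comp hd3 (ContinuousOn.prodMk (hsc.comp (by fun_prop) ?_)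
      (by fun_prop)) ?_
    · rintro ⟨x, v⟩ ⟨hx, -⟩
      exact hx
    · rintro ⟨x, v⟩ -
      exact ⟨mem_univ _, mem_univ _⟩

theorem isOpen_offOrbit {E Γ : Type} [NormedAddCommGroup E] [NormedSpace ℝ E] [Group Γ]
    (M : NegManifold E Γ) (x₀ : M.X) : IsOpen (offOrbit M x₀) := by
  have := M.hadamard.proper
  have hcl : IsClosed (⋃ γ : Γ, ({γ • x₀} : Set M.X)) := by
    apply LocallyFinite.isClosed_iUnion
    · intro y
      refine ⟨Metric.closedBall y 1, Metric.closedBall_mem_nhds y one_pos, ?_⟩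
      refine (M.deck.2.2 (insert x₀ (Metric.closedBall y 1))
        ((isCompact_closedBall y 1).insert x₀)).subset ?_
      rintro γ ⟨z, hz, hzb⟩
      rw [mem_singleton_iff] at hz
      subst hz
      exact ⟨x₀, mem_insert _ _, mem_insert_of_mem _ hzb⟩
    · intro γ
      exact isClosed_singleton
  have h : offOrbit M x₀ = (⋃ γ : Γ, ({γ • x₀} : Set M.X))ᶜ := by
    ext x
    simp only [offOrbit, mem_ofPred_eq, mem_compl_iff, mem_iUnion, mem_singleton_iff, not_exists]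
    exact ⟨fun h γ hx => h γ hx.symm, fun h γ hx => h γ hx.symm⟩
  rw [h]
  exact hcl.isOpen_compl

theorem image_offOrbit {E Γ : Type} [NormedAddCommGroup E] [NormedSpace ℝ E] [Group Γ]
    (M N : NegManifold E Γ) (f : M.X ≃ₜ N.X)
    (hf : ∀ (γ : Γ) (x : M.X), f (γ • x) = γ • f x) (x₀ : M.X) :
    f '' offOrbit M x₀ = offOrbit N (f x₀) := by
  ext y
  constructor
  · rintro ⟨x, hx, rfl⟩ γ h
    rw [← hf] at h
    exact hx γ (f.injective h)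
  · intro hy
    refine ⟨f.symm y, fun γ h => hy γ ?_, f.apply_symm_apply y⟩
    rw [← hf, h, f.apply_symm_apply]

/-- The theorem on closed strictly quarter pinched manifolds, from the blocks and the published
theorems. -/
theorem relative_of (hMAIN : Stmt_MAIN) (hFJ : FarrellJones) (hCT : ConjugacyTheorem)
    (hHopf : HopfTheorem) (hKS : KirbySiebenmann) (hKM : KervaireMilnor) (E Γ : Type)
    [NormedAddCommGroup E] [NormedSpace ℝ E] [Group Γ] (hn : 5 ≤ Module.finrank ℝ E)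
    (M N : NegManifold E Γ) (hM : QuarterPinched M) (hN : QuarterPinched N)
    (h : SameSpectrum M N) :
    (Odd (Module.finrank ℝ E) ∨ Module.finrank ℝ E = 6 ∨ Module.finrank ℝ E = 12 ∨
      Module.finrank ℝ E = 56 → ∃ (Φ : M.X → N.X) (Ψ : N.X → M.X),
      IsEquivDiffeo E Γ univ univ Φ Ψ) ∧
      ∀ x₀ : M.X, ∃ (y₀ : N.X) (Φ : M.X → N.X) (Ψ : N.X → M.X),
        IsEquivDiffeo E Γ (offOrbit M x₀) (offOrbit N y₀) Φ Ψ := by
  obtain ⟨f, hf⟩ := hFJ E Γ hn M N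
  obtain ⟨F, hF, hC⟩ := hCT E Γ hn M N hM hN h
  obtain ⟨h1, h2⟩ := hHopf E Γ hn M
  have key : ∀ x₀ : M.X, ∃ (y₀ : N.X) (Φ : M.X → N.X) (Ψ : N.X → M.X),
      IsEquivDiffeo E Γ (offOrbit M x₀) (offOrbit N y₀) Φ Ψ := by
    intro x₀
    obtain ⟨s, hs⟩ := h2 x₀
    refine ⟨f x₀, ?_⟩
    rw [← image_offOrbit M N f hf x₀]
    refine diffeo_of hMAIN hKS E Γ hn M N f hf F hF hC _ (isOpen_offOrbit M x₀) ?_ s hs
    intro γ x hx δ hδ
    apply hx (γ⁻¹ * δ)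
    rw [mul_smul, hδ, inv_smul_smul]
  refine ⟨?_, key⟩
  rintro (hodd | h6)
  · obtain ⟨s, hs⟩ := h1 hodd
    have := diffeo_of hMAIN hKS E Γ hn M N f hf F hF hC univ isOpen_univ
      (fun _ _ _ => mem_univ _) s hs
    rwa [image_univ_of_surjective f.surjective] at this
  · obtain ⟨x₀⟩ := M.ne
    obtain ⟨y₀, Φ, Ψ, hΦ⟩ := key x₀
    exact hKM E Γ h6 M N x₀ y₀ Φ Ψ hΦ

end Pool.Agent.MLS
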