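import Pool.Agent.Work.MP_f21b3e_ml.Interface

/-! # LFM: the leaf maps of a conjugacy -/

set_option autoImplicit false

namespace Pool.Agent.MLS

open Set Topology

theorem LFM_symm {X : Type} [MetricSpace X] {c d : Lines X} (h : Asy c d) : Asy d c := by
  obtain ⟨C, hC⟩ := h
  exact ⟨C, fun t ht => by rw [dist_comm]; exact hC t ht⟩

theorem LFM_trans {X : Type} [MetricSpace X] {c d e : Lines X} (h : Asy c d) (h' : Asy d e) :
    Asy c e := by
  obtain ⟨C, hC⟩ := h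
  obtain ⟨D, hD⟩ := h'
  exact ⟨C + D, fun t ht => (dist_triangle _ _ _).trans (add_le_add (hC t ht) (hD t ht))⟩

theorem LFM_mv {X : Type} [MetricSpace X] {Γ : Type} [Group Γ] [MulAction Γ X]
    [IsIsometricSMul Γ X] {c d : Lines X} (γ : Γ) (h : Asy c d) : Asy (mv γ c) (mv γ d) := by
  obtain ⟨C, hC⟩ := h
  refine ⟨C, fun t ht => ?_⟩
  have h1 : dist ((mv γ c).1 t) ((mv γ d).1 t) = dist (c.1 t) (d.1 t) := dist_smul γ _ _
  rw [h1]
  exact hC t ht

theorem LFM_eval (X : Type) [MetricSpace X] (t : ℝ) : Continuous fun c : Lines X => c.1 t :=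
  (continuous_eval_const t).comp continuous_subtype_val

theorem p_LFM (_hAUN : Stmt_AUN) (hACO : Stmt_ACO) (hBND : Stmt_BND) (hFAS : Stmt_FAS) :
    Stmt_LFM := by
  intro X Y _ _ hX hY Γ _ _ _ _ _ hK f hf F hF
  obtain ⟨a, ha0, ha1, ha2, ha3⟩ := hACO X hX
  obtain ⟨b, hb0, hb1, hb2, hb3⟩ := hACO Y hY
  have hFA := hFAS X Y hX hY Γ hK f hf F hF
  obtain ⟨⟨C, hC⟩, _⟩ := hBND X Y hX hY Γ hK f hf F hF
  refine ⟨fun c x => (F (a c x)).1 0, fun c y => (F.symm (b (F c) y)).1 0, C, ?_, ?_, ?_, ?_, ?_,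
    ?_, ?_, ?_⟩
  · intro c d h
    show (F (a c (d.1 0))).1 0 = (F d).1 0
    rw [ha2 c d h]
  · intro c x
    show (F.symm (b (F c) ((F (a c x)).1 0))).1 0 = x
    rw [hb2 (F c) (F (a c x)) ((hFA c (a c x)).1 (ha1 c x)), Homeomorph.symm_apply_apply, ha0]
  · intro c y
    show (F (a c ((F.symm (b (F c) y)).1 0))).1 0 = y
    have h1 : Asy c (F.symm (b (F c) y)) := by
      rw [hFA, Homeomorph.apply_symm_apply]
      exact hb1 (F c) y
    rw [ha2 c _ h1, Homeomorph.apply_symm_apply, hb0]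
  · exact (LFM_eval Y 0).comp (F.continuous.comp ha3)
  · exact (LFM_eval X 0).comp (F.symm.continuous.comp
      (hb3.comp ((F.continuous.comp continuous_fst).prodMk continuous_snd)))
  · intro γ c x
    show (F (a (mv γ c) (γ • x))).1 0 = γ • (F (a c x)).1 0
    have h1 := ha2 (mv γ c) (mv γ (a c x)) (LFM_mv γ (ha1 c x))
    have h2 : (mv γ (a c x)).1 0 = γ • x := by
      show γ • (a c x).1 0 = γ • x
      rw [ha0]
    rw [h2] at h1
    rw [h1, hF.equiv]
    rfl
  · intro c x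
    have h1 := hC (a c x)
    rw [ha0] at h1
    exact h1
  · intro c d x h
    show (F (a c x)).1 0 = (F (a d x)).1 0
    have h1 := ha2 d (a c x) (LFM_trans (LFM_symm h) (ha1 c x))
    rw [ha0] at h1
    rw [h1]

end Pool.Agent.MLS
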