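import Mathlib

/-!
# Marked length spectrum and smooth structure: geodesic lines, conjugacies, leaf maps

`X` is the Riemannian universal cover of a closed negatively curved manifold `M = X/Γ`. Its unit
tangent bundle is the space `Lines X` of the unit speed geodesic lines of `X` (`v` corresponds to
the line `c` with `c'(0) = v`), the geodesic flow is the translation of the parameter, the weak
stable leaves are the classes of positively asymptotic lines.
-/

set_option autoImplicit false

namespace Pool.Agent.MLS

open Set Topology

/-- The unit speed geodesic lines of `X`: the isometric maps `ℝ → X`, with the topology of uniform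
convergence on compact sets. -/
abbrev Lines (X : Type) [MetricSpace X] : Type := {c : C(ℝ, X) // Isometry c}

/-- Hadamard spaces with unique extension of geodesics: `X` is proper, any two distinct points lie
on exactly one geodesic line, and `X` is nonpositively curved (in the sense of Busemann: the
distance of the points which divide two segments with a common origin in the ratio `t` is at most
`t` times the distance of the end points). Every complete simply connected Riemannian manifold of
nonpositive sectional curvature has these properties (Cartan-Hadamard). -/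
structure IsHadamard (X : Type) [MetricSpace X] : Prop where
  proper : ProperSpace X
  line : ∀ p q : X, p ≠ q → ∃! c : Lines X, c.1 0 = p ∧ c.1 (dist p q) = q
  convex : ∀ c c' : Lines X, c.1 0 = c'.1 0 → ∀ a b t : ℝ, 0 ≤ a → 0 ≤ b → 0 ≤ t → t ≤ 1 →
    dist (c.1 (t * a)) (c'.1 (t * b)) ≤ t * dist (c.1 a) (c'.1 b)

/-- The geodesic flow: `(shift s c)(t) = c(t + s)`. -/
def shift {X : Type} [MetricSpace X] (s : ℝ) (c : Lines X) : Lines X :=
  ⟨⟨fun t => c.1 (t + s), c.1.continuous.comp (by fun_prop)⟩,
    Isometry.of_dist_eq fun a b => by
      show dist (c.1 (a + s)) (c.1 (b + s)) = dist a b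
      rw [c.2.dist_eq, dist_add_right]⟩

/-- The line run through backwards: `(rev c)(t) = c(-t)`. -/
def rev {X : Type} [MetricSpace X] (c : Lines X) : Lines X :=
  ⟨⟨fun t => c.1 (-t), c.1.continuous.comp (by fun_prop)⟩,
    Isometry.of_dist_eq fun a b => by
      show dist (c.1 (-a)) (c.1 (-b)) = dist a b
      rw [c.2.dist_eq, dist_neg_neg]⟩

/-- The action of an isometry on the lines: `(mv γ c)(t) = γ c(t)`. -/
def mv {X : Type} [MetricSpace X] {Γ : Type} [Group Γ] [MulAction Γ X] [IsIsometricSMul Γ X]
    (γ : Γ) (c : Lines X) : Lines X :=
  ⟨⟨fun t => γ • c.1 t, (isometry_smul X γ).continuous.comp c.1.continuous⟩,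
    (isometry_smul X γ).comp c.2⟩

/-- `c` and `d` are (positively) asymptotic: `dist (c(t), d(t))` is bounded for `t ≥ 0`, that is,
`c` and `d` end at the same point at infinity; the classes are the weak stable leaves of the
geodesic flow. -/
def Asy {X : Type} [MetricSpace X] (c d : Lines X) : Prop :=
  ∃ C : ℝ, ∀ t : ℝ, 0 ≤ t → dist (c.1 t) (d.1 t) ≤ C

/-- `F` is a time preserving conjugacy of the geodesic flows of `X/Γ` and `Y/Γ` (lifted to the
universal covers, compatible with the identification of the fundamental groups). -/
structure Conjugacy {X Y : Type} [MetricSpace X] [MetricSpace Y] (Γ : Type) [Group Γ]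
    [MulAction Γ X] [MulAction Γ Y] [IsIsometricSMul Γ X] [IsIsometricSMul Γ Y]
    (F : Lines X ≃ₜ Lines Y) : Prop where
  equiv : ∀ (γ : Γ) (c : Lines X), F (mv γ c) = mv γ (F c)
  flow : ∀ (s : ℝ) (c : Lines X), F (shift s c) = shift s (F c)

/-- `L` is the family of the leaf maps of `F`: the weak stable leaf of `c` is mapped to that of
`F c`; both are identified with `X` and `Y` by the foot point `d ↦ d(0)`. -/
def LeafMaps {X Y : Type} [MetricSpace X] [MetricSpace Y] (F : Lines X ≃ₜ Lines Y)
    (L : Lines X → X → Y) : Prop :=
  ∀ c d : Lines X, Asy c d → L c (d.1 0) = (F d).1 0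

end Pool.Agent.MLS
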