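import Pool.Agent.Work.MP_f21b3e_ml.Defs

/-!
# MP_f21b3e_gt, leaf maps of a conjugacy are isotopic to the homeomorphism: blocks

Table `mls_blocks`.  One block = one file `B_XXX.lean` in this folder,
`import Pool.Agent.Work.MP_f21b3e_ml.Interface`, `namespace Pool.Agent.MLS`,
`theorem p_XXX (hA : Stmt_A) .. : Stmt_XXX` with exactly the blocks of the column `uses` as
hypotheses, in that order.  Auxiliary lemmas get the prefix `XXX_`.  No straight double quotes.

Useful: `c.2.dist_eq s t : dist (c.1 s) (c.1 t) = dist s t`.  Continuity by compactness: to show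
that `u : A → Lines X` is continuous at `a` when `u` is uniquely determined by a closed condition,
use `continuousAt_iff_ultrafilter`: for an ultrafilter `U ≤ 𝓝 a` the ultrafilter `U.map u` contains
the compact set of `ARZ`, so it converges to some `c`, evaluations converge
(`c ↦ c.1 t` is continuous), hence `c = u a`.
-/

set_option autoImplicit false

namespace Pool.Agent.MLS

open Set Topology

/-- `hm p t y`: the point at distance `t * dist p y` from `p` on the line from `p` through `y`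
(the homothety of centre `p` and ratio `t`); `hm p t p = p`. -/
noncomputable def hm {X : Type} [MetricSpace X] (p : X) (t : ℝ) (y : X) : X :=
  open Classical in
  if h : ∃ c : Lines X, c.1 0 = p ∧ c.1 (dist p y) = y then h.choose.1 (t * dist p y) else p

/-- **ARZ** (120).  Arzela-Ascoli: `X` is proper; the lines with `c(0) ∈ K` form a compact set of
`Lines X`.  (`C(ℝ, X)` with the compact-open topology; the set `{g : C(ℝ, X) | Isometry g ∧
g 0 ∈ K}` is closed and equicontinuous, and `g t` stays in the compact set of the points at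
distance `≤ |t|` from `K`: `ArzelaAscoli.isCompact_of_equicontinuous` or Tychonoff: the map
`c ↦ (t ↦ c t)` from this set to `∀ t, X` is a closed embedding into a product of compact sets,
because on an equicontinuous set pointwise convergence = convergence on compact sets; or ultrafilters
directly.) -/
def Stmt_ARZ : Prop :=
  ∀ (X : Type) [MetricSpace X], ProperSpace X → ∀ K : Set X, IsCompact K →
    IsCompact {c : Lines X | c.1 0 ∈ K}

/-- **HMB** (80).  Basic properties of `hm`.  For `y = p` a line with `c(0) = p`, `c(dist p p) = p`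
gives `hm p t p = c(0) = p`, and if there is none it is `p` by definition.  For `y ≠ p` the line is
the only one.  `hm p s (hm p t y)`: for `t > 0`, `y ≠ p` the line of `y` passes through `hm p t y` at
the parameter `t * dist p y = dist p (hm p t y)`. -/
def Stmt_HMB : Prop :=
  ∀ (X : Type) [MetricSpace X], IsHadamard X →
    (∀ (c : Lines X) (r t : ℝ), 0 ≤ r → hm (c.1 0) t (c.1 r) = c.1 (t * r)) ∧
    (∀ (p : X) (t : ℝ), hm p t p = p) ∧ (∀ p y : X, hm p 1 y = y) ∧ (∀ p y : X, hm p 0 y = p) ∧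
    (∀ (p y : X) (s t : ℝ), 0 < t → hm p s (hm p t y) = hm p (s * t) y) ∧
    (∀ (p y : X) (t : ℝ), 0 ≤ t → dist p (hm p t y) = t * dist p y) ∧
    (∀ (p y z : X) (t : ℝ), 0 ≤ t → t ≤ 1 → dist (hm p t y) (hm p t z) ≤ t * dist y z)

/-- **HMC** (100), uses ARZ HMB.  `hm` is jointly continuous for `t ≥ 0`.  At `(p, t, p)`:
`dist (hm p' t' y') p ≤ dist p' p + t' dist p' y'`.  At `(p, t, y)`, `y ≠ p`: the line `u(p', y')`
from `p'` through `y'` is continuous at `(p, y)` (ultrafilters and ARZ, uniqueness), and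
`(c, s) ↦ c.1 s` is continuous. -/
def Stmt_HMC : Prop :=
  ∀ (X : Type) [MetricSpace X], IsHadamard X →
    ContinuousOn (fun q : X × ℝ × X => hm q.1 q.2.1 q.2.2) {q | 0 ≤ q.2.1}

/-- **HME** (30), uses HMB.  `hm` commutes with isometries (`mv γ` of the line). -/
def Stmt_HME : Prop :=
  ∀ (X : Type) [MetricSpace X], IsHadamard X → ∀ (Γ : Type) [Group Γ] [MulAction Γ X]
    [IsIsometricSMul Γ X] (γ : Γ) (p : X) (t : ℝ) (y : X), hm (γ • p) t (γ • y) = γ • hm p t y

/-- **AUN** (60).  Two asymptotic lines with the same origin are equal.  For `0 ≤ s` and `a > 0`,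
`a ≥ s`: `c(s) = c((s/a) a)`, so `dist (c s) (d s) ≤ (s/a) dist (c a) (d a) ≤ (s/a) C → 0`.  So
`c 1 = d 1`, and the line through `c 0`, `c 1` (different points) is unique. -/
def Stmt_AUN : Prop :=
  ∀ (X : Type) [MetricSpace X], IsHadamard X → ∀ c d : Lines X, c.1 0 = d.1 0 → Asy c d → c = d

/-- **AEX** (120), uses ARZ.  Existence of asymptotic lines.  `D = dist (c 0) x`.  For `n : ℕ`,
`n > D`: `c n ≠ x` and `d_n` = the line with `d_n 0 = x`, `d_n R = c n`, `R = dist x (c n)`,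
`|R - n| ≤ D`.  For `0 ≤ t ≤ R`, `l = 1 - t/R`: the lines `s ↦ c(n - s)` and `s ↦ d_n(R - s)` have
the same origin `c n`, so `dist (c(n - l n)) (d_n(R - l R)) ≤ l * dist (c 0) x ≤ D`, i.e.
`dist (c(t n / R)) (d_n t) ≤ D`, and `dist (c(t n / R)) (c t) = t |n - R| / R ≤ D`.  So
`dist (c t) (d_n t) ≤ 2 D` for `0 ≤ t ≤ R`.  The `d_n` lie in the compact set `{d | d 0 = x}`: a
cluster point `d` has `dist (c t) (d t) ≤ 2 D` for all `t ≥ 0`. -/
def Stmt_AEX : Prop :=
  ∀ (X : Type) [MetricSpace X], IsHadamard X → ∀ (c : Lines X) (x : X),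
    ∃ d : Lines X, d.1 0 = x ∧ ∀ t : ℝ, 0 ≤ t → dist (c.1 t) (d.1 t) ≤ 2 * dist (c.1 0) x

/-- **ACO** (80), uses ARZ AUN AEX.  The asymptotic line through `x`, as a continuous function `a`
of `(c, x)`.  `a c x` = the line of AEX (unique by AUN).  Continuity: ultrafilters and ARZ with
`K` = closed ball around `x0`; the bound `dist (c t) (a c x t) ≤ 2 dist (c 0) x` passes to the
limit. -/
def Stmt_ACO : Prop :=
  ∀ (X : Type) [MetricSpace X], IsHadamard X →
    ∃ a : Lines X → X → Lines X, (∀ c x, (a c x).1 0 = x) ∧ (∀ c x, Asy c (a c x)) ∧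
      (∀ c d : Lines X, Asy c d → a c (d.1 0) = d) ∧
      Continuous (fun q : Lines X × X => a q.1 q.2)

/-- **BND** (80), uses ARZ.  `c ↦ dist (F c 0) (f (c 0))` is continuous and `Γ`-invariant, and it is
bounded on the compact set of the lines with `c 0 ∈ K`.  Second part: `dist (f x) (f y)` for
`dist x y ≤ R`: move `x` into `K`; then `(x, y)` is in the compact set `K × cthickening`. -/
def Stmt_BND : Prop :=
  ∀ (X Y : Type) [MetricSpace X] [MetricSpace Y], IsHadamard X → IsHadamard Y →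
    ∀ (Γ : Type) [Group Γ] [MulAction Γ X] [MulAction Γ Y] [IsIsometricSMul Γ X]
    [IsIsometricSMul Γ Y], (∃ K : Set X, IsCompact K ∧ ∀ x : X, ∃ γ : Γ, γ • x ∈ K) →
    ∀ f : X ≃ₜ Y, (∀ (γ : Γ) (x : X), f (γ • x) = γ • f x) →
    ∀ F : Lines X ≃ₜ Lines Y, Conjugacy Γ F →
      (∃ C : ℝ, ∀ c : Lines X, dist ((F c).1 0) (f (c.1 0)) ≤ C) ∧
      ∀ R : ℝ, ∃ C : ℝ, ∀ x y : X, dist x y ≤ R → dist (f x) (f y) ≤ C

/-- **FAS** (80), uses BND.  `F` preserves asymptotic lines: `(F c)(t) = (F (shift t c))(0)` is at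
distance `≤ C` from `f (c t)`, so `dist (F c t) (F d t) ≤ 2 C + dist (f (c t)) (f (d t))`.  For the
converse apply the same to `F.symm`, `f.symm` (`Γ` is cocompact on `Y` with `f '' K`). -/
def Stmt_FAS : Prop :=
  ∀ (X Y : Type) [MetricSpace X] [MetricSpace Y], IsHadamard X → IsHadamard Y →
    ∀ (Γ : Type) [Group Γ] [MulAction Γ X] [MulAction Γ Y] [IsIsometricSMul Γ X]
    [IsIsometricSMul Γ Y], (∃ K : Set X, IsCompact K ∧ ∀ x : X, ∃ γ : Γ, γ • x ∈ K) →
    ∀ f : X ≃ₜ Y, (∀ (γ : Γ) (x : X), f (γ • x) = γ • f x) →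
    ∀ F : Lines X ≃ₜ Lines Y, Conjugacy Γ F → ∀ c d : Lines X, Asy c d ↔ Asy (F c) (F d)

/-- **LFM** (120), uses AUN ACO BND FAS.  The leaf maps.  With `a` of ACO for `X` and `b` for `Y`:
`L c x = (F (a c x)) 0`, `M c y = (F.symm (b (F c) y)) 0`.  `L c (M c y) = y`: `e = F.symm (b (F c) y)`
is asymptotic to `c` (FAS), so `a c (e 0) = e` and `F e = b (F c) y`.  `M c (L c x) = x`:
`F (a c x)` is asymptotic to `F c`, so `b (F c) (L c x) = F (a c x)`.  Equivariance: `mv γ (a c x)`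
is asymptotic to `mv γ c` with origin `γ x`, so it is `a (mv γ c) (γ x)`. -/
def Stmt_LFM : Prop :=
  ∀ (X Y : Type) [MetricSpace X] [MetricSpace Y], IsHadamard X → IsHadamard Y →
    ∀ (Γ : Type) [Group Γ] [MulAction Γ X] [MulAction Γ Y] [IsIsometricSMul Γ X]
    [IsIsometricSMul Γ Y], (∃ K : Set X, IsCompact K ∧ ∀ x : X, ∃ γ : Γ, γ • x ∈ K) →
    ∀ f : X ≃ₜ Y, (∀ (γ : Γ) (x : X), f (γ • x) = γ • f x) →
    ∀ F : Lines X ≃ₜ Lines Y, Conjugacy Γ F →
      ∃ (L : Lines X → X → Y) (M : Lines X → Y → X) (C : ℝ), LeafMaps F L ∧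
        (∀ c x, M c (L c x) = x) ∧ (∀ c y, L c (M c y) = y) ∧
        Continuous (fun q : Lines X × X => L q.1 q.2) ∧
        Continuous (fun q : Lines X × Y => M q.1 q.2) ∧
        (∀ (γ : Γ) (c : Lines X) (x : X), L (mv γ c) (γ • x) = γ • L c x) ∧
        (∀ c x, dist (L c x) (f x) ≤ C) ∧ ∀ c d x, Asy c d → L c x = L d x

/-- **ISO** (150), uses HMB HMC HME.  The isotopy (abstract form).  `P` is a space with a map
`v : P → Y` (centres), `act γ` are maps of `P` (in the application `mv γ` on `P = Lines X`).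
For `0 < t ≤ 1`, `p = v c`:
`H (c, t, z) = hm p t (L c (f.symm (hm p t⁻¹ (f z))))`,
`G (c, t, y) = f.symm (hm p t (f (M c (hm p t⁻¹ y))))`, and for `t = 0`: `H = f z`,
`G = f.symm y`.  Inverse to each other: `hm p t⁻¹ (hm p t y) = y`.  Estimate: `f z = hm p t w` with
`w = hm p t⁻¹ (f z)`, so `dist (H (c,t,z)) (f z) ≤ t * dist (L c (f.symm w)) w ≤ t * C`; in the same
way `dist (f (G (c,t,y))) y ≤ t * C`.  Continuity for `t > 0`: composition (HMC); at `t = 0`: the
estimates and continuity of `f`, `f.symm`. -/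
def Stmt_ISO : Prop :=
  ∀ (X Y : Type) [MetricSpace X] [MetricSpace Y], IsHadamard Y →
    ∀ (Γ : Type) [Group Γ] [MulAction Γ X] [MulAction Γ Y] [IsIsometricSMul Γ Y]
    (P : Type) [TopologicalSpace P] (act : Γ → P → P) (v : P → Y), Continuous v →
    (∀ (γ : Γ) (c : P), v (act γ c) = γ • v c) →
    ∀ f : X ≃ₜ Y, (∀ (γ : Γ) (x : X), f (γ • x) = γ • f x) →
    ∀ (L : P → X → Y) (M : P → Y → X) (C : ℝ),
      (∀ c x, M c (L c x) = x) → (∀ c y, L c (M c y) = y) →
      Continuous (fun q : P × X => L q.1 q.2) → Continuous (fun q : P × Y => M q.1 q.2) →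
      (∀ (γ : Γ) (c : P) (x : X), L (act γ c) (γ • x) = γ • L c x) →
      (∀ c x, dist (L c x) (f x) ≤ C) →
      ∃ (H : P × ℝ × X → Y) (G : P × ℝ × Y → X),
        ContinuousOn H {q | q.2.1 ∈ Icc 0 1} ∧ ContinuousOn G {q | q.2.1 ∈ Icc 0 1} ∧
        (∀ c, ∀ t ∈ Icc (0 : ℝ) 1, ∀ z, G (c, t, H (c, t, z)) = z) ∧
        (∀ c, ∀ t ∈ Icc (0 : ℝ) 1, ∀ y, H (c, t, G (c, t, y)) = y) ∧
        (∀ c z, H (c, 0, z) = f z) ∧ (∀ c z, H (c, 1, z) = L c z) ∧
        (∀ (γ : Γ) (c : P), ∀ t ∈ Icc (0 : ℝ) 1, ∀ z,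
          H (act γ c, t, γ • z) = γ • H (c, t, z)) ∧
        ∀ c, ∀ t ∈ Icc (0 : ℝ) 1, ∀ z, dist (H (c, t, z)) (f z) ≤ t * C

end Pool.Agent.MLS
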